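import Pool.Agent.MP_48470b_gt.Geo.Crit

/-! From a non-round embedded solution of the pointwise equation to the negated statement. -/

set_option autoImplicit false
set_option maxHeartbeats 400000
open MeasureTheory Set Filter Topology
open scoped InnerProductSpace Manifold ContDiff

namespace Pool.Agent.MP_48470b_gt.Geo

instance fact4 : Fact (Module.finrank ℝ E4 = 3 + 1) := ⟨finrank_euclideanSpace_fin⟩

lemma two_le : (2 : WithTop ℕ∞) ≤ ∞ := WithTop.coe_le_coe.2 (le_top : ((2 : ℕ∞)) ≤ ⊤)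

lemma pr_smooth {x : E4} (hx : x ≠ 0) : ContMDiffAt 𝓘(ℝ, E4) (𝓡 3) ∞ Sph.pr x := by
  let U : TopologicalSpace.Opens E4 := ⟨{y | y ≠ 0}, isOpen_ne⟩
  have h1 : ContMDiff 𝓘(ℝ, E4) 𝓘(ℝ, E4) ∞ fun y : U => ‖(y : E4)‖⁻¹ • (y : E4) := fun y =>
    (contMDiffAt_subtype_iff (f := fun y : E4 => ‖y‖⁻¹ • y)).2
      (Sph.contDiffAt_unit y.2).contMDiffAt
  have h2 := h1.codRestrict_sphere (n := 3) fun y => Sph.pr_val y.2 ▸ (Sph.pr (y : E4)).2
  refine (contMDiffAt_subtype_iff (U := U) (x := ⟨x, hx⟩)).1 ?_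
  refine (h2 ⟨x, hx⟩).congr_of_eventuallyEq (Eventually.of_forall fun y => ?_)
  exact Subtype.ext (Sph.pr_val y.2)

lemma nrm_congr {G H : E4 → E4} {x : E4} (hx : x ∈ S3) (hG : DifferentiableAt ℝ G x)
    (hH : DifferentiableAt ℝ H x) (e : EqOn G H S3) : nrm G x = nrm H x := by
  simp only [nrm, D_congr hx hG hH e]

lemma Nres_congr {G H : E4 → E4} (hG : ∀ x ∈ S3, ContDiffAt ℝ 2 G x)
    (hH : ∀ x ∈ S3, ContDiffAt ℝ 2 H x) (e : EqOn G H S3) {x : E4} (hx : x ∈ S3) :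
    Nres G x = Nres H x := by
  have d1 : ∀ j, EqOn (D j G) (D j H) S3 := fun j y hy =>
    D_congr hy ((hG y hy).differentiableAt (by simp)) ((hH y hy).differentiableAt (by simp)) e j
  have d2 : ∀ i j, D i (D j G) x = D i (D j H) x := fun i j =>
    D_congr hx ((contDiffAt_D (m := 1) (hG x hx) (by norm_num) j).differentiableAt (by simp))
      ((contDiffAt_D (m := 1) (hH x hx) (by norm_num) j).differentiableAt (by simp)) (d1 j) i
  have d3 : ∀ j, D j G x = D j H x := fun j => d1 j hx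
  simp only [Nres, gm, nrm, d2, d3, e hx]

/-- criticality under all smooth variations -/
theorem crit (Φ : E4 → E4) (hΦ : ∀ x ∈ S3, ContDiffAt ℝ 2 Φ x) (hi : InjOn Φ S3)
    (hn : ∀ x ∈ S3, nrm Φ x ≠ 0) (hN : ∀ x ∈ S3, Nres Φ x = 0)
    (F : ℝ × Metric.sphere (0 : E4) 1 → E4)
    (hF : ContMDiff ((𝓘(ℝ, ℝ)).prod (𝓡 3)) 𝓘(ℝ, E4) ∞ F) (h0 : ∀ x, F (0, x) = Φ x) :
    HasDerivAt (fun t : ℝ => ∫ y in Set.range (fun x => F (t, x)), Real.exp (-‖y‖ ^ 2 / 4) ∂μH[3])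
      0 0 := by
  let G : ℝ × E4 → E4 := fun q => F (q.1, Sph.pr q.2)
  have hG : ∀ x ∈ S3, ContDiffAt ℝ 2 G (0, x) := by
    intro x hx
    have h1 : ContMDiffAt 𝓘(ℝ, ℝ × E4) (𝓡 3) ∞ (fun q : ℝ × E4 => Sph.pr q.2) (0, x) :=
      (pr_smooth (Sph.S3.ne ⟨x, hx⟩)).comp (0, x) contDiffAt_snd.contMDiffAt
    have h2 : ContMDiffAt 𝓘(ℝ, ℝ × E4) 𝓘(ℝ, ℝ) ∞ (fun q : ℝ × E4 => q.1) (0, x) :=
      contDiffAt_fst.contMDiffAt
    have h3 := (hF _).comp (0, x) (h2.prodMk h1)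
    exact h3.contDiffAt.of_le two_le
  have e : EqOn (sl G 0) Φ S3 := fun x hx => by
    have := Sph.pr_coe ⟨x, hx⟩
    simp only [sl, G, this, h0]
  have k := var_core hG (hi.congr e.symm)
    (fun x hx => by
      rw [nrm_congr hx ((cd_sl (hG x hx)).differentiableAt (by simp))
        ((hΦ x hx).differentiableAt (by simp)) e]
      exact hn x hx)
    (fun x hx => by rw [Nres_congr (fun y hy => cd_sl (hG y hy)) hΦ e hx]; exact hN x hx)
  have r : ∀ t, sl G t '' S3 = Set.range fun x => F (t, x) := fun t => by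
    rw [image_eq_range]
    simp only [sl, G, Sph.pr_coe]
  simpa only [r, gw] using k

lemma tangent_inj {Φ : E4 → E4} {x v : E4} (hx : x ∈ S3) (hn : nrm Φ x ≠ 0) (hv : ⟪x, v⟫_ℝ = 0)
    (h : fderiv ℝ Φ x v = 0) : v = 0 := by
  have h1 := col_pj hx (fderiv ℝ Φ x) v
  rw [h, hv, zero_smul, sub_zero] at h1
  have h2 : pj x v = 0 := (LinearMap.ker_eq_bot'.1 (ker_col hn)) _ h1
  have h3 := pj_nsq hx v
  rw [h2, hv] at h3
  simpa using h3.symm

/-- the statement whose negation is to be proved -/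
def Uniq : Prop :=
  ∀ f : Metric.sphere (0 : EuclideanSpace ℝ (Fin 4)) 1 → EuclideanSpace ℝ (Fin 4),
    ContMDiff (𝓡 3) 𝓘(ℝ, EuclideanSpace ℝ (Fin 4)) ∞ f →
    (∀ x, Function.Injective (mfderiv (𝓡 3) 𝓘(ℝ, EuclideanSpace ℝ (Fin 4)) f x)) →
    Function.Injective f →
    (∀ F : ℝ × Metric.sphere (0 : EuclideanSpace ℝ (Fin 4)) 1 → EuclideanSpace ℝ (Fin 4),
      ContMDiff ((𝓘(ℝ, ℝ)).prod (𝓡 3)) 𝓘(ℝ, EuclideanSpace ℝ (Fin 4)) ∞ F →
      (∀ x, F (0, x) = f x) →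
      HasDerivAt
        (fun t : ℝ => ∫ y in Set.range (fun x => F (t, x)), Real.exp (-‖y‖ ^ 2 / 4) ∂μH[3])
        0 0) →
    ∃ r : ℝ, 0 < r ∧ Set.range f = Metric.sphere 0 r

/-- **Geometry layer.** A smooth injective immersion with `Nres = 0` and non-constant norm
refutes uniqueness. -/
theorem not_uniq (Φ : E4 → E4) (hΦ : ∀ x ∈ S3, ContDiffAt ℝ ∞ Φ x) (hi : InjOn Φ S3)
    (hn : ∀ x ∈ S3, nrm Φ x ≠ 0) (hN : ∀ x ∈ S3, Nres Φ x = 0)
    (hr : ∃ x ∈ S3, ∃ y ∈ S3, ‖Φ x‖ ≠ ‖Φ y‖) : ¬ Uniq := by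
  intro h
  have hc : ContMDiff (𝓡 3) 𝓘(ℝ, E4) ∞ (Subtype.val : Metric.sphere (0 : E4) 1 → E4) :=
    contMDiff_coe_sphere
  obtain ⟨r, -, e⟩ := h (fun x => Φ x) (fun x => (hΦ x x.2).contMDiffAt.comp x (hc x))
    (fun x => by
      have h1 := mfderiv_comp (I := 𝓡 3) (I' := 𝓘(ℝ, E4)) (I'' := 𝓘(ℝ, E4)) (g := Φ)
        (f := (Subtype.val : Metric.sphere (0 : E4) 1 → E4)) x
        ((hΦ x x.2).contMDiffAt.mdifferentiableAt (by simp)) ((hc x).mdifferentiableAt (by simp))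
      rw [mfderiv_eq_fderiv] at h1
      refine (injective_iff_map_eq_zero _).2 fun v hv => ?_
      have h2 : fderiv ℝ Φ x (mvfderiv (𝓡 3) (Subtype.val : Metric.sphere (0 : E4) 1 → E4) x v)
          = 0 := (DFunLike.congr_fun h1 v).symm.trans hv
      have h3 : mvfderiv (𝓡 3) (Subtype.val : Metric.sphere (0 : E4) 1 → E4) x v ∈
          (ℝ ∙ (x : E4))ᗮ := by
        rw [← range_mvfderiv_subtypeVal (n := 3) x]; exact ⟨v, rfl⟩
      exact (injective_iff_map_eq_zero _).1 (injective_mvfderiv_subtypeVal_sphere (n := 3) x) v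
        (tangent_inj x.2 (hn x x.2) (Submodule.mem_orthogonal_singleton_iff_inner_right.1 h3) h2))
    (fun x y e => Subtype.ext (hi x.2 y.2 e))
    (crit Φ (fun x hx => (hΦ x hx).of_le two_le) hi hn hN)
  obtain ⟨x, hx, y, hy, hne⟩ := hr
  have k : ∀ z ∈ S3, ‖Φ z‖ = r := fun z hz =>
    mem_sphere_zero_iff_norm.1 (e ▸ mem_range_self (f := fun x : Metric.sphere (0 : E4) 1 => Φ x)
      ⟨z, hz⟩)
  exact hne ((k x hx).trans (k y hy).symm)

/-- the equation tested with one non-zero normal vector and an inverse of the metric -/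
lemma Nres_of_inv {Φ : E4 → E4} {x : E4} (H : Matrix (Fin 3) (Fin 3) ℝ) (hH : gm Φ x * H = 1)
    (n : E4) (hn : n ≠ 0) (hp : ∀ a, ⟪D a Φ x, n⟫_ℝ = 0)
    (he : ∑ a, ∑ b, H a b * ⟪D a (D b Φ) x, n⟫_ℝ + ⟪Φ x, n⟫_ℝ / 2 = 0) :
    nrm Φ x ≠ 0 ∧ Nres Φ x = 0 := by
  have hd : (gm Φ x).det = ‖nrm Φ x‖ ^ 2 := det_gram fun i => D i Φ x
  have h1 : nrm Φ x ≠ 0 := by
    intro h0
    have := congrArg Matrix.det hH
    rw [Matrix.det_mul, hd, h0] at this
    simp at this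
  refine ⟨h1, ?_⟩
  obtain ⟨p, q, r, s, e⟩ := exists_coef h1 n
  change n = p • nrm Φ x + _ + _ + _ at e
  have h2 : n = p • nrm Φ x := by
    have t : q • D 0 Φ x + r • D 1 Φ x + s • D 2 Φ x = n - p • nrm Φ x := by rw [e]; abel
    have t2 : ⟪n - p • nrm Φ x, n - p • nrm Φ x⟫_ℝ = 0 := by
      nth_rewrite 1 [← t]
      simp only [inner_add_left, real_inner_smul_left, inner_sub_right, real_inner_smul_right, hp,
        real_inner_comm (nrm Φ x) (D _ Φ x), D_perp]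
      ring
    exact sub_eq_zero.1 (inner_self_eq_zero.1 t2)
  have hp0 : p ≠ 0 := by rintro rfl; simp [hn] at h2
  have h3 : (gm Φ x).adjugate = (gm Φ x).det • H := by
    rw [← Matrix.mul_one (gm Φ x).adjugate, ← hH, ← Matrix.mul_assoc, Matrix.adjugate_mul,
      Matrix.smul_mul, Matrix.one_mul]
  apply mul_left_cancel₀ hp0
  rw [h2] at he
  simp only [Nres, h3, Matrix.smul_apply, smul_eq_mul, real_inner_smul_right,
    Fin.sum_univ_three] at he ⊢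
  linear_combination (gm Φ x).det * he

/-- the map with components in the algebra of smooth functions, extended with degree zero -/
noncomputable def ext (f : Fin 4 → Sph.R) (y : E4) : E4 := WithLp.toLp 2 fun k => Sph.hom (f k) y

lemma ext_coe (f : Fin 4 → Sph.R) (x : Sph.S3) (k : Fin 4) : ext f x k = f k x := by simp [ext]

lemma cd_ext (f : Fin 4 → Sph.R) {x : E4} (hx : x ∈ S3) : ContDiffAt ℝ ∞ (ext f) x :=
  contDiffAt_euclidean.2 fun k => (f k).sm (Sph.S3.ne ⟨x, hx⟩)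

lemma D_ext (f : Fin 4 → Sph.R) (a : Fin 3) :
    EqOn (D a (ext f)) (ext fun k => Sph.E a (f k)) S3 := by
  intro x hx
  ext k
  have h1 := hd_coord (dD ((cd_ext f hx).differentiableAt (by simp)) a) k
  have h2 := dD ((f k).diff (Sph.S3.ne ⟨x, hx⟩)) a
  exact (h1.unique h2).trans (ext_coe (fun k => Sph.E a (f k)) ⟨x, hx⟩ k).symm

lemma DD_ext (f : Fin 4 → Sph.R) (a b : Fin 3) {x : E4} (hx : x ∈ S3) :
    D a (D b (ext f)) x = ext (fun k => Sph.E a (Sph.E b (f k))) x := by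
  rw [D_congr hx
    ((contDiffAt_D (m := 1) ((cd_ext f hx).of_le two_le) (n := 2) (by norm_num) b).differentiableAt (by simp))
    ((cd_ext _ hx).differentiableAt (by simp)) (D_ext f b)]
  exact D_ext _ a hx

/-- **Geometry layer, algebra form.** -/
theorem not_uniq_R (f : Fin 4 → Sph.R) (hi : ∀ x y, (∀ k, f k x = f k y) → x = y)
    (he : ∀ x : Sph.S3, ∃ (H : Matrix (Fin 3) (Fin 3) ℝ) (n : Fin 4 → ℝ),
      (Matrix.of fun a b => ∑ k, Sph.E a (f k) x * Sph.E b (f k) x) * H = 1 ∧ n ≠ 0 ∧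
      (∀ a, ∑ k, Sph.E a (f k) x * n k = 0) ∧
      ∑ a, ∑ b, H a b * ∑ k, Sph.E a (Sph.E b (f k)) x * n k + (∑ k, f k x * n k) / 2 = 0)
    (hr : ∃ x y, ∑ k, f k x ^ 2 ≠ ∑ k, f k y ^ 2) : ¬ Uniq := by
  have key : ∀ x ∈ S3, nrm (ext f) x ≠ 0 ∧ Nres (ext f) x = 0 := by
    intro x hx
    obtain ⟨H, n, h1, h2, h3, h4⟩ := he ⟨x, hx⟩
    have c := fun g k => ext_coe g ⟨x, hx⟩ k
    refine Nres_of_inv H ?_ (WithLp.toLp 2 n) (by simpa using h2) (fun a => ?_) ?_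
    · rw [← h1]
      simp only [gm, D_ext f _ hx, inner4, c, Fin.sum_univ_four]
    · simpa only [D_ext f _ hx, inner4, c, Fin.sum_univ_four] using h3 a
    · simpa only [DD_ext f _ _ hx, inner4, c, Fin.sum_univ_four] using h4
  refine not_uniq (ext f) (fun x hx => cd_ext f hx) (fun x hx y hy e => ?_)
    (fun x hx => (key x hx).1) (fun x hx => (key x hx).2) ?_
  · refine congrArg Subtype.val (hi ⟨x, hx⟩ ⟨y, hy⟩ fun k => ?_)
    rw [← ext_coe, ← ext_coe]; exact congrArg (fun v : E4 => v k) e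
  · obtain ⟨x, y, h⟩ := hr
    refine ⟨x, x.2, y, y.2, fun e => h ?_⟩
    have := congrArg (· ^ 2) e
    simpa only [nsq4, ext_coe, Fin.sum_univ_four] using this

end Pool.Agent.MP_48470b_gt.Geo
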