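import Pool.Agent.MP_48470b_gt.Sph.Defs

/-! Linear algebra in `R^4`: quaternionic frame of the 3-sphere, cross product, determinant. -/

set_option autoImplicit false
open scoped InnerProductSpace

namespace Pool.Agent.MP_48470b_gt.Geo

abbrev E4 := EuclideanSpace ℝ (Fin 4)

/-- the three complex structures; `jv i x` is an orthonormal frame of the sphere at `x` -/
noncomputable def jv (i : Fin 3) : E4 →L[ℝ] E4 := Sph.mat (Sph.eM i)

lemma jv_apply (i : Fin 3) (x : E4) (k : Fin 4) : jv i x k = ∑ l, Sph.eM i k l * x l := by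
  simp [jv, Sph.mat, Matrix.mulVec, dotProduct]

@[simp] lemma jv00 (x : E4) : jv 0 x 0 = -x 1 := by
  simp [jv_apply, Sph.eM, Fin.sum_univ_four]
@[simp] lemma jv01 (x : E4) : jv 0 x 1 = x 0 := by
  simp [jv_apply, Sph.eM, Fin.sum_univ_four]
@[simp] lemma jv02 (x : E4) : jv 0 x 2 = x 3 := by
  simp [jv_apply, Sph.eM, Fin.sum_univ_four]
@[simp] lemma jv03 (x : E4) : jv 0 x 3 = -x 2 := by
  simp [jv_apply, Sph.eM, Fin.sum_univ_four]
@[simp] lemma jv10 (x : E4) : jv 1 x 0 = -x 2 := by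
  simp [jv_apply, Sph.eM, Fin.sum_univ_four]
@[simp] lemma jv11 (x : E4) : jv 1 x 1 = -x 3 := by
  simp [jv_apply, Sph.eM, Fin.sum_univ_four]
@[simp] lemma jv12 (x : E4) : jv 1 x 2 = x 0 := by
  simp [jv_apply, Sph.eM, Fin.sum_univ_four]
@[simp] lemma jv13 (x : E4) : jv 1 x 3 = x 1 := by
  simp [jv_apply, Sph.eM, Fin.sum_univ_four]
@[simp] lemma jv20 (x : E4) : jv 2 x 0 = -x 3 := by
  simp [jv_apply, Sph.eM, Fin.sum_univ_four]
@[simp] lemma jv21 (x : E4) : jv 2 x 1 = x 2 := by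
  simp [jv_apply, Sph.eM, Fin.sum_univ_four]
@[simp] lemma jv22 (x : E4) : jv 2 x 2 = -x 1 := by
  simp [jv_apply, Sph.eM, Fin.sum_univ_four]
@[simp] lemma jv23 (x : E4) : jv 2 x 3 = x 0 := by
  simp [jv_apply, Sph.eM, Fin.sum_univ_four]

lemma inner4 (a b : E4) : ⟪a, b⟫_ℝ = a 0 * b 0 + a 1 * b 1 + a 2 * b 2 + a 3 * b 3 := by
  simp [PiLp.inner_apply, Fin.sum_univ_four]; ring

lemma nsq4 (a : E4) : ‖a‖ ^ 2 = a 0 ^ 2 + a 1 ^ 2 + a 2 ^ 2 + a 3 ^ 2 := by
  rw [← real_inner_self_eq_norm_sq, inner4]; ring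

lemma ext4 {a b : E4} (h0 : a 0 = b 0) (h1 : a 1 = b 1) (h2 : a 2 = b 2) (h3 : a 3 = b 3) :
    a = b := by
  ext k; fin_cases k <;> assumption

/-- 3 x 3 determinant of the coordinates `p q r` of three vectors -/
def d3 (a b c : E4) (p q r : Fin 4) : ℝ :=
  a p * (b q * c r - b r * c q) - a q * (b p * c r - b r * c p) + a r * (b p * c q - b q * c p)

/-- cross product of three vectors of `R^4` -/
noncomputable def cr (a b c : E4) : E4 :=
  !₂[d3 a b c 1 2 3, -d3 a b c 0 2 3, d3 a b c 0 1 3, -d3 a b c 0 1 2]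

@[simp] lemma cr0 (a b c : E4) : cr a b c 0 = d3 a b c 1 2 3 := by simp [cr]
@[simp] lemma cr1 (a b c : E4) : cr a b c 1 = -d3 a b c 0 2 3 := by simp [cr]
@[simp] lemma cr2 (a b c : E4) : cr a b c 2 = d3 a b c 0 1 3 := by simp [cr]
@[simp] lemma cr3 (a b c : E4) : cr a b c 3 = -d3 a b c 0 1 2 := by simp [cr]

/-- determinant of four vectors -/
noncomputable def dt (m a b c : E4) : ℝ := ⟪m, cr a b c⟫_ℝ

lemma dt_eq (m a b c : E4) : dt m a b c =
    m 0 * d3 a b c 1 2 3 - m 1 * d3 a b c 0 2 3 + m 2 * d3 a b c 0 1 3 - m 3 * d3 a b c 0 1 2 := by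
  simp only [dt, inner4, cr0, cr1, cr2, cr3]; ring

lemma cr_perp0 (a b c : E4) : ⟪a, cr a b c⟫_ℝ = 0 := by
  simp only [inner4, cr0, cr1, cr2, cr3, d3]; ring
lemma cr_perp1 (a b c : E4) : ⟪b, cr a b c⟫_ℝ = 0 := by
  simp only [inner4, cr0, cr1, cr2, cr3, d3]; ring
lemma cr_perp2 (a b c : E4) : ⟪c, cr a b c⟫_ℝ = 0 := by
  simp only [inner4, cr0, cr1, cr2, cr3, d3]; ring

/-- Gram determinant = square of the norm of the cross product -/
lemma det_gram (a : Fin 3 → E4) :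
    (Matrix.of fun i j => ⟪a i, a j⟫_ℝ).det = ‖cr (a 0) (a 1) (a 2)‖ ^ 2 := by
  rw [Matrix.det_fin_three, nsq4]
  simp only [Matrix.of_apply, inner4, cr0, cr1, cr2, cr3, d3]; ring

/-- Cramer's rule -/
lemma cramer4 (n a b c y : E4) : dt n a b c • y =
    dt y a b c • n + dt n y b c • a + dt n a y c • b + dt n a b y • c := by
  apply ext4 <;> simp only [PiLp.add_apply, PiLp.smul_apply, smul_eq_mul, dt_eq, d3] <;> ring

lemma exists_coef {a b c : E4} (h : cr a b c ≠ 0) (y : E4) :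
    ∃ p q r s : ℝ, y = p • cr a b c + q • a + r • b + s • c := by
  have hd : dt (cr a b c) a b c ≠ 0 := by
    simpa [dt] using h
  refine ⟨dt y a b c / dt (cr a b c) a b c, dt (cr a b c) y b c / dt (cr a b c) a b c,
    dt (cr a b c) a y c / dt (cr a b c) a b c, dt (cr a b c) a b y / dt (cr a b c) a b c, ?_⟩
  have := cramer4 (cr a b c) a b c y
  apply smul_right_injective E4 hd
  simp only [smul_add, smul_smul]
  rw [this]; field_simp

lemma jv_perp (i : Fin 3) (x : E4) : ⟪x, jv i x⟫_ℝ = 0 := by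
  fin_cases i <;> simp [inner4] <;> ring

lemma jv_norm (i : Fin 3) (x : E4) : ‖jv i x‖ = ‖x‖ := by
  rw [← sq_eq_sq₀ (norm_nonneg _) (norm_nonneg _), nsq4, nsq4]
  fin_cases i <;> simp <;> ring

/-- the frame together with `x` spans -/
lemma frame_span (x y : E4) : (‖x‖ ^ 2) • y = ⟪x, y⟫_ℝ • x + ⟪jv 0 x, y⟫_ℝ • jv 0 x +
    ⟪jv 1 x, y⟫_ℝ • jv 1 x + ⟪jv 2 x, y⟫_ℝ • jv 2 x := by
  apply ext4 <;> simp [nsq4, inner4] <;> ring

lemma cr_frame (x : E4) : cr (jv 0 x) (jv 1 x) (jv 2 x) = (‖x‖ ^ 2) • x := by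
  apply ext4 <;> simp [nsq4, d3] <;> ring

lemma jj01 (x : E4) : jv 0 (jv 1 x) = -jv 2 x := by apply ext4 <;> simp
lemma jj10 (x : E4) : jv 1 (jv 0 x) = jv 2 x := by apply ext4 <;> simp
lemma jj12 (x : E4) : jv 1 (jv 2 x) = -jv 0 x := by apply ext4 <;> simp
lemma jj21 (x : E4) : jv 2 (jv 1 x) = jv 0 x := by apply ext4 <;> simp
lemma jj20 (x : E4) : jv 2 (jv 0 x) = -jv 1 x := by apply ext4 <;> simp
lemma jj02 (x : E4) : jv 0 (jv 2 x) = jv 1 x := by apply ext4 <;> simp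
lemma jjii (i : Fin 3) (x : E4) : jv i (jv i x) = -x := by
  fin_cases i <;> apply ext4 <;> simp

/-- a combination of three vectors with non-zero cross product vanishes only trivially -/
lemma indep_of_cr {a b c : E4} (h : cr a b c ≠ 0) {p q r : ℝ} (e : p • a + q • b + r • c = 0) :
    p = 0 ∧ q = 0 ∧ r = 0 := by
  have hd : dt (cr a b c) a b c ≠ 0 := by simpa [dt] using h
  have e0 := congrArg (fun v : E4 => v 0) e
  have e1 := congrArg (fun v : E4 => v 1) e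
  have e2 := congrArg (fun v : E4 => v 2) e
  have e3 := congrArg (fun v : E4 => v 3) e
  simp only [PiLp.add_apply, PiLp.smul_apply, smul_eq_mul, PiLp.zero_apply] at e0 e1 e2 e3
  generalize cr a b c = n at hd
  refine ⟨?_, ?_, ?_⟩ <;> apply mul_left_cancel₀ hd
  · linear_combination (norm := (simp only [dt_eq, d3]; ring1)) (-d3 n b c 1 2 3) * e0 + d3 n b c 0 2 3 * e1 - d3 n b c 0 1 3 * e2 +
      d3 n b c 0 1 2 * e3
  · linear_combination (norm := (simp only [dt_eq, d3]; ring1)) (d3 n a c 1 2 3) * e0 - d3 n a c 0 2 3 * e1 + d3 n a c 0 1 3 * e2 -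
      d3 n a c 0 1 2 * e3
  · linear_combination (norm := (simp only [dt_eq, d3]; ring1)) (-d3 n a b 1 2 3) * e0 + d3 n a b 0 2 3 * e1 - d3 n a b 0 1 3 * e2 +
      d3 n a b 0 1 2 * e3

end Pool.Agent.MP_48470b_gt.Geo
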