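import Mathlib

/-! Measure theoretic tools: comparison of Hausdorff measures of images, local to global
comparison of measures, differentiation under the integral over a compact set. -/

set_option autoImplicit false
open MeasureTheory Set Filter Topology
open scoped ENNReal NNReal

namespace Pool.Agent.MP_48470b_gt.Geo

/-- if `a` expands distances at most `K` times more than `b`, compare the image measures -/
lemma haus_cmp {X Y Z : Type*} [MetricSpace Y] [MeasurableSpace Y] [BorelSpace Y]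
    [MetricSpace Z] [MeasurableSpace Z] [BorelSpace Z] (a : X → Y) (b : X → Z) (B : Set X)
    (K : ℝ≥0) (d : ℕ) (h : ∀ x ∈ B, ∀ y ∈ B, dist (a x) (a y) ≤ K * dist (b x) (b y)) :
    μH[d] (a '' B) ≤ (K : ℝ≥0∞) ^ d * μH[d] (b '' B) := by
  classical
  rcases B.eq_empty_or_nonempty with rfl | ⟨x0, hx0⟩
  · simp
  have : Nonempty X := ⟨x0⟩
  let g : Z → Y := fun z => a (Function.invFunOn b B z)
  have hg : ∀ x ∈ B, g (b x) = a x := by
    intro x hx
    have h1 : Function.invFunOn b B (b x) ∈ B := Function.invFunOn_mem ⟨x, hx, rfl⟩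
    have h2 : b (Function.invFunOn b B (b x)) = b x := Function.invFunOn_eq ⟨x, hx, rfl⟩
    have := h _ h1 x hx
    rw [h2, dist_self, mul_zero] at this
    exact dist_le_zero.1 this
  have hl : LipschitzOnWith K g (b '' B) := by
    apply LipschitzOnWith.of_dist_le_mul
    rintro _ ⟨x, hx, rfl⟩ _ ⟨y, hy, rfl⟩
    rw [hg x hx, hg y hy]; exact h x hx y hy
  have he : g '' (b '' B) = a '' B := by
    rw [image_image]; exact image_congr hg
  have := hl.hausdorffMeasure_image_le (d := (d : ℝ)) (by positivity)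
  rw [he, ENNReal.rpow_natCast] at this
  exact this

/-- a local inequality between measures on a compact space is global -/
lemma le_of_loc {X : Type*} [TopologicalSpace X] [CompactSpace X] [MeasurableSpace X]
    [BorelSpace X] (α β : Measure X)
    (h : ∀ x, ∃ U ∈ 𝓝 x, ∀ B ⊆ U, MeasurableSet B → α B ≤ β B) : α ≤ β := by
  have key : ∃ U : Set X, IsOpen U ∧ univ ⊆ U ∧ ∀ B ⊆ U, MeasurableSet B → α B ≤ β B := by
    refine isCompact_univ.induction_on
      (p := fun s => ∃ U : Set X, IsOpen U ∧ s ⊆ U ∧ ∀ B ⊆ U, MeasurableSet B → α B ≤ β B)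
      ⟨∅, isOpen_empty, subset_rfl, fun B hB _ => by simp [subset_empty_iff.1 hB]⟩ ?_ ?_ ?_
    · rintro s t hst ⟨U, h1, h2, h3⟩
      exact ⟨U, h1, hst.trans h2, h3⟩
    · rintro s t ⟨U, h1, h2, h3⟩ ⟨V, k1, k2, k3⟩
      refine ⟨U ∪ V, h1.union k1, union_subset_union h2 k2, fun B hB hm => ?_⟩
      rw [← measure_inter_add_sdiff (μ := α) B h1.measurableSet,
        ← measure_inter_add_sdiff (μ := β) B h1.measurableSet]
      refine add_le_add (h3 _ inter_subset_right (hm.inter h1.measurableSet))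
        (k3 _ ?_ (hm.diff h1.measurableSet))
      intro y hy
      exact (hB hy.1).resolve_left hy.2
    · intro x _
      obtain ⟨U, hU, h3⟩ := h x
      refine ⟨interior U, mem_nhdsWithin_of_mem_nhds (interior_mem_nhds.2 hU), interior U,
        isOpen_interior, subset_rfl, fun B hB => h3 B (hB.trans interior_subset)⟩
  obtain ⟨U, -, h2, h3⟩ := key
  exact Measure.le_iff.2 fun B hB => h3 B ((subset_univ B).trans h2) hB

lemma le_of_forall_mul {a b : ℝ≥0∞} (h : ∀ c : ℝ≥0, 1 < c → a ≤ c * b) : a ≤ b := by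
  rcases eq_or_ne b ⊤ with rfl | hb
  · exact le_top
  have ht : Tendsto (fun c : ℝ≥0 => (c : ℝ≥0∞) * b) (𝓝[>] 1) (𝓝 ((1 : ℝ≥0) * b)) := by
    apply Tendsto.mono_left _ nhdsWithin_le_nhds
    exact ENNReal.Tendsto.mul_const (ENNReal.continuous_coe.tendsto 1) (Or.inr hb)
  have := ge_of_tendsto ht (eventually_nhdsWithin_of_forall fun c hc => h c hc)
  simpa using this

/-- a measure that is locally almost `J x` times another one has density `J` -/
lemma eq_withDensity_of_loc {X : Type*} [TopologicalSpace X] [CompactSpace X]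
    [MeasurableSpace X] [BorelSpace X] (μ ν : Measure X) (J : X → ℝ≥0) (hJ : Continuous J)
    (hp : ∀ x, 0 < J x)
    (h : ∀ x, ∀ c : ℝ≥0, 1 < c → ∃ U ∈ 𝓝 x, ∀ B ⊆ U, MeasurableSet B →
      ν B ≤ c * (J x * μ B) ∧ J x * μ B ≤ c * ν B) :
    ν = μ.withDensity (fun x => J x) := by
  have near : ∀ x, ∀ c : ℝ≥0, 1 < c → ∀ᶠ y in 𝓝 x, J y ≤ c * J x ∧ J x ≤ c * J y := by
    intro x c hc
    have h1 : J x < c * J x := lt_mul_of_one_lt_left (hp x) hc
    refine ((hJ.tendsto x).eventually (ge_mem_nhds h1)).and ?_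
    exact ((continuous_const.mul hJ).tendsto x).eventually (le_mem_nhds h1)
  have sq : ∀ c : ℝ≥0, 1 < c → ∃ e : ℝ≥0, 1 < e ∧ e * e = c := fun c hc =>
    ⟨NNReal.sqrt c, by simpa using NNReal.sqrt_lt_sqrt.2 hc, NNReal.mul_self_sqrt c⟩
  apply le_antisymm
  · refine Measure.le_iff.2 fun B0 hB0 => le_of_forall_mul fun c hc => ?_
    obtain ⟨e, he, rfl⟩ := sq c hc
    have : ν ≤ ((e * e : ℝ≥0) : ℝ≥0∞) • μ.withDensity (fun x => J x) := by
      apply le_of_loc
      intro x
      obtain ⟨U, hU, h1⟩ := h x e he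
      refine ⟨_, inter_mem hU (near x e he), fun B hB hm => ?_⟩
      refine (h1 B (hB.trans inter_subset_left) hm).1.trans ?_
      rw [Measure.smul_apply, smul_eq_mul, withDensity_apply _ hm, ENNReal.coe_mul, mul_assoc]
      refine mul_le_mul_right ?_ _
      rw [← lintegral_const_mul _ hJ.measurable.coe_nnreal_ennreal, ← setLIntegral_const]
      refine setLIntegral_mono' hm fun y hy => ?_
      exact_mod_cast (hB hy).2.2
    exact this B0
  · refine Measure.le_iff.2 fun B0 hB0 => le_of_forall_mul fun c hc => ?_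
    obtain ⟨e, he, rfl⟩ := sq c hc
    have : μ.withDensity (fun x => J x) ≤ ((e * e : ℝ≥0) : ℝ≥0∞) • ν := by
      apply le_of_loc
      intro x
      obtain ⟨U, hU, h1⟩ := h x e he
      refine ⟨_, inter_mem hU (near x e he), fun B hB hm => ?_⟩
      rw [Measure.smul_apply, smul_eq_mul, withDensity_apply _ hm, ENNReal.coe_mul, mul_assoc]
      refine le_trans ?_ (mul_le_mul_right (h1 B (hB.trans inter_subset_left) hm).2 _)
      rw [← mul_assoc, ← setLIntegral_const]
      refine setLIntegral_mono' hm fun y hy => ?_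
      exact_mod_cast (hB hy).2.1
    exact this B0

/-- differentiation at `t = 0` under an integral over a compact set -/
lemma deriv_setIntegral {E : Type*} [NormedAddCommGroup E] [NormedSpace ℝ E] [MeasurableSpace E]
    [BorelSpace E] [FiniteDimensional ℝ E] (μ : Measure E) {K : Set E} (hK : IsCompact K)
    (hμ : μ K ≠ ⊤) (a : ℝ × E → ℝ) (ha : ∀ x ∈ K, ContDiffAt ℝ 1 a (0, x)) :
    HasDerivAt (fun t => ∫ x in K, a (t, x) ∂μ) (∫ x in K, fderiv ℝ a (0, x) (1, 0) ∂μ) 0 := by
  have : IsFiniteMeasure (μ.restrict K) := ⟨by simpa using hμ.lt_top⟩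
  have h1 : ∀ᶠ t in 𝓝 (0 : ℝ), ∀ x ∈ K, ContDiffAt ℝ 1 a (t, x) :=
    hK.eventually_forall_of_forall_eventually (x₀ := (0 : ℝ))
      (P := fun t x => ContDiffAt ℝ 1 a (t, x)) fun x hx => (ha x hx).eventually (by simp)
  obtain ⟨ε, hε, h2⟩ := Metric.eventually_nhds_iff_ball.1 h1
  have hc : IsCompact (Metric.closedBall (0 : ℝ) (ε / 2) ×ˢ K) :=
    (isCompact_closedBall _ _).prod hK
  have hb : ∀ p ∈ Metric.closedBall (0 : ℝ) (ε / 2) ×ˢ K, ContDiffAt ℝ 1 a p := fun p hp =>
    h2 p.1 (Metric.closedBall_subset_ball (by linarith) hp.1) p.2 hp.2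
  have hcd : ContinuousOn (fun p => fderiv ℝ a p (1, 0)) (Metric.closedBall (0 : ℝ) (ε / 2) ×ˢ K) :=
    fun p hp => (((hb p hp).continuousAt_fderiv (by simp)).clm_apply
      continuousAt_const).continuousWithinAt
  obtain ⟨C, hC⟩ := hc.exists_bound_of_continuousOn hcd
  have slice : ∀ t ∈ Metric.closedBall (0 : ℝ) (ε / 2), ∀ {g : ℝ × E → ℝ},
      ContinuousOn g (Metric.closedBall (0 : ℝ) (ε / 2) ×ˢ K) →
      ContinuousOn (fun x => g (t, x)) K := fun t ht g hg =>
    hg.comp (Continuous.prodMk_right t).continuousOn fun x hx => ⟨ht, hx⟩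
  have hca : ContinuousOn a (Metric.closedBall (0 : ℝ) (ε / 2) ×ˢ K) := fun p hp =>
    (hb p hp).continuousAt.continuousWithinAt
  have h0 : (0 : ℝ) ∈ Metric.closedBall (0 : ℝ) (ε / 2) := Metric.mem_closedBall_self (by linarith)
  have hn : Metric.closedBall (0 : ℝ) (ε / 2) ∈ 𝓝 (0 : ℝ) :=
    Metric.closedBall_mem_nhds _ (by linarith)
  refine (hasDerivAt_integral_of_dominated_loc_of_deriv_le (μ := μ.restrict K)
    (F := fun t x => a (t, x)) (F' := fun t x => fderiv ℝ a (t, x) (1, 0)) (bound := fun _ => C)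
    hn ?_ ?_ ?_ ?_ (integrable_const C) ?_).2
  · filter_upwards [hn] with t ht
    exact (slice t ht hca).aestronglyMeasurable hK.measurableSet
  · exact (slice 0 h0 hca).integrableOn_of_subset_isCompact hK hK.measurableSet subset_rfl hμ
  · exact (slice 0 h0 hcd).aestronglyMeasurable hK.measurableSet
  · filter_upwards [ae_restrict_mem hK.measurableSet] with x hx t ht
    exact hC (t, x) ⟨ht, hx⟩
  · filter_upwards [ae_restrict_mem hK.measurableSet] with x hx t ht
    have hd := ((hb (t, x) ⟨ht, hx⟩).differentiableAt (by simp)).hasFDerivAt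
    exact hd.comp_hasDerivAt t ((hasDerivAt_id t).prodMk (hasDerivAt_const t x))

end Pool.Agent.MP_48470b_gt.Geo
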