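import Pool.Agent.MP_48470b_gt.Geo.Alg
import Pool.Agent.MP_48470b_gt.Geo.Meas

/-! Area formula for injective immersions of the 3-sphere into `R^4`. -/

set_option autoImplicit false
set_option maxHeartbeats 400000
open MeasureTheory Set Filter Topology
open scoped ENNReal NNReal InnerProductSpace

namespace Pool.Agent.MP_48470b_gt.Geo

abbrev E3 := EuclideanSpace ℝ (Fin 3)

/-- the unit sphere -/
abbrev S3 : Set E4 := Metric.sphere 0 1

/-- derivative along the `i`-th frame field -/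
noncomputable def D {F : Type*} [NormedAddCommGroup F] [NormedSpace ℝ F] (i : Fin 3) (h : E4 → F)
    (x : E4) : F := fderiv ℝ h x (jv i x)

/-- the non-normalised normal of a map restricted to the sphere -/
noncomputable def nrm (G : E4 → E4) (x : E4) : E4 := cr (D 0 G x) (D 1 G x) (D 2 G x)

/-- coordinates in the frame at `x` -/
noncomputable def pj (x z : E4) : E3 := !₂[⟪jv 0 x, z⟫_ℝ, ⟪jv 1 x, z⟫_ℝ, ⟪jv 2 x, z⟫_ℝ]

/-- the linear map with columns `a b c` -/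
noncomputable def col (a b c : E4) : E3 →ₗ[ℝ] E4 where
  toFun u := u 0 • a + u 1 • b + u 2 • c
  map_add' u v := by simp only [PiLp.add_apply, add_smul]; abel
  map_smul' r u := by simp only [PiLp.smul_apply, smul_eq_mul, RingHom.id_apply, smul_add, smul_smul]

lemma col_apply (a b c : E4) (u : E3) : col a b c u = u 0 • a + u 1 • b + u 2 • c := rfl

lemma normDet_col (a b c : E4) : (col a b c).normDet = ‖cr a b c‖ := by
  rw [← sq_eq_sq₀ (LinearMap.normDet_nonneg _) (norm_nonneg _)]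
  have h := (col a b c).normDet_sq_eq_det_gram (EuclideanSpace.basisFun (Fin 3) ℝ)
  have h2 := det_gram ![a, b, c]
  simp only [Matrix.cons_val_zero, Matrix.cons_val_one, Matrix.cons_val] at h2
  rw [← h2]
  refine Eq.trans (by simp) (h.trans ?_)
  refine congrArg Matrix.det ?_
  ext i j
  fin_cases i <;> fin_cases j <;> simp [Matrix.gram, col_apply]

lemma ker_col {a b c : E4} (h : cr a b c ≠ 0) : (col a b c).ker = ⊥ := by
  rw [LinearMap.ker_eq_bot']
  intro u hu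
  obtain ⟨h0, h1, h2⟩ := indep_of_cr h hu
  ext k; fin_cases k <;> assumption

lemma pj_sub (x y z : E4) : pj x (y - z) = pj x y - pj x z := by
  ext k; fin_cases k <;> simp [pj, inner_sub_right]

lemma pj_cont (x : E4) : Continuous (pj x) := by
  unfold pj
  refine (PiLp.continuous_toLp 2 _).comp (continuous_pi fun k => ?_)
  fin_cases k <;> simp <;> fun_prop

lemma pj_nsq {x : E4} (hx : x ∈ S3) (z : E4) : ‖pj x z‖ ^ 2 = ‖z‖ ^ 2 - ⟪x, z⟫_ℝ ^ 2 := by
  have h1 : ‖x‖ ^ 2 = 1 := by simp [mem_sphere_zero_iff_norm.1 hx]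
  rw [EuclideanSpace.real_norm_sq_eq, Fin.sum_univ_three]
  rw [nsq4] at h1
  simp [pj, nsq4, inner4]
  linear_combination (z 0 ^ 2 + z 1 ^ 2 + z 2 ^ 2 + z 3 ^ 2) * h1

lemma col_pj {x : E4} (hx : x ∈ S3) (A : E4 →L[ℝ] E4) (z : E4) :
    col (A (jv 0 x)) (A (jv 1 x)) (A (jv 2 x)) (pj x z) = A z - ⟪x, z⟫_ℝ • A x := by
  have h1 : ‖x‖ ^ 2 = 1 := by simp [mem_sphere_zero_iff_norm.1 hx]
  have h := congrArg A (frame_span x z)
  rw [h1, one_smul] at h
  rw [h]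
  simp [col_apply, pj]
  abel

lemma inner_small {x0 x y : E4} (hx : x ∈ S3) (hy : y ∈ S3) {η : ℝ} (h1 : ‖x - x0‖ ≤ η)
    (h2 : ‖y - x0‖ ≤ η) : |⟪x0, x - y⟫_ℝ| ≤ η * ‖x - y‖ := by
  have hx' := mem_sphere_zero_iff_norm.1 hx
  have hy' := mem_sphere_zero_iff_norm.1 hy
  have e : ⟪x0, x - y⟫_ℝ = -(1 / 2) * (⟪x - x0, x - y⟫_ℝ + ⟪y - x0, x - y⟫_ℝ) := by
    simp only [inner_sub_left, inner_sub_right, real_inner_self_eq_norm_sq, hx', hy',
      real_inner_comm x y]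
    ring
  have a1 := abs_real_inner_le_norm (x - x0) (x - y)
  have a2 := abs_real_inner_le_norm (y - x0) (x - y)
  have a3 := mul_le_mul_of_nonneg_right h1 (norm_nonneg (x - y))
  have a4 := mul_le_mul_of_nonneg_right h2 (norm_nonneg (x - y))
  rw [abs_le] at a1 a2 ⊢
  constructor <;> linarith [a1.1, a1.2, a2.1, a2.2]

/-- on the sphere near `x0`, an approximation by `A` is a relative approximation -/
lemma lin_core {x0 : E4} (h0 : x0 ∈ S3) (A : E4 →L[ℝ] E4)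
    (hA : cr (A (jv 0 x0)) (A (jv 1 x0)) (A (jv 2 x0)) ≠ 0) {ε : ℝ} (hε : 0 < ε) :
    ∃ δ > 0, ∀ x ∈ S3, ∀ y ∈ S3, ‖x - x0‖ ≤ δ → ‖y - x0‖ ≤ δ →
      (col (A (jv 0 x0)) (A (jv 1 x0)) (A (jv 2 x0)) (pj x0 (x - y)) = 0 → x = y) ∧
      ∀ w : E4, ‖w - A (x - y)‖ ≤ δ * ‖x - y‖ →
        ‖w - col (A (jv 0 x0)) (A (jv 1 x0)) (A (jv 2 x0)) (pj x0 (x - y))‖ ≤
          ε * ‖col (A (jv 0 x0)) (A (jv 1 x0)) (A (jv 2 x0)) (pj x0 (x - y))‖ := by
  obtain ⟨K, hK, hK'⟩ := LinearMap.exists_antilipschitzWith _ (ker_col hA)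
  have hK0 : (0 : ℝ) < K := hK
  have hd : 0 < ε / (2 * K * (1 + ‖A x0‖)) := by positivity
  refine ⟨min (1 / 2) (ε / (2 * K * (1 + ‖A x0‖))), lt_min (by norm_num) hd,
    fun x hx y hy h1 h2 => ?_⟩
  set δ := min (1 / 2) (ε / (2 * K * (1 + ‖A x0‖))) with hδ
  have d1 : δ ≤ 1 / 2 := min_le_left _ _
  have d2 : δ ≤ ε / (2 * K * (1 + ‖A x0‖)) := min_le_right _ _
  have d0 : 0 < δ := lt_min (by norm_num) hd
  have i1 := inner_small hx hy h1 h2
  set z := x - y with hz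
  set L := col (A (jv 0 x0)) (A (jv 1 x0)) (A (jv 2 x0)) with hL
  have p1 : ‖z‖ ≤ 2 * ‖pj x0 z‖ := by
    have e := pj_nsq h0 z
    have : ⟪x0, z⟫_ℝ ^ 2 ≤ (1 / 2 * ‖z‖) ^ 2 := by
      rw [← sq_abs]
      exact pow_le_pow_left₀ (abs_nonneg _)
        (i1.trans (mul_le_mul_of_nonneg_right d1 (norm_nonneg _))) 2
    refine (pow_le_pow_iff_left₀ (norm_nonneg _) (by positivity) two_ne_zero).1 ?_
    nlinarith [norm_nonneg z, norm_nonneg (pj x0 z)]
  have p2 : ‖pj x0 z‖ ≤ K * ‖L (pj x0 z)‖ := ZeroHomClass.bound_of_antilipschitz L hK' _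
  have p3 : ‖z‖ ≤ 2 * K * ‖L (pj x0 z)‖ := by linarith
  refine ⟨fun e => ?_, fun w hw => ?_⟩
  · rw [e, norm_zero, mul_zero] at p3
    exact sub_eq_zero.1 (norm_le_zero_iff.1 p3)
  · have e : w - L (pj x0 z) = (w - A z) + ⟪x0, z⟫_ℝ • A x0 := by
      rw [hL, col_pj h0]; abel
    have n1 : ‖w - L (pj x0 z)‖ ≤ δ * (1 + ‖A x0‖) * ‖z‖ := by
      rw [e]
      refine (norm_add_le _ _).trans ?_
      rw [norm_smul, Real.norm_eq_abs]
      have := mul_le_mul_of_nonneg_right i1 (norm_nonneg (A x0))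
      linarith
    have n2 : δ * (1 + ‖A x0‖) * (2 * K) ≤ ε := by
      rw [le_div_iff₀ (by positivity)] at d2
      linarith
    calc _ ≤ δ * (1 + ‖A x0‖) * (2 * K * ‖L (pj x0 z)‖) := n1.trans (by gcongr)
      _ = δ * (1 + ‖A x0‖) * (2 * K) * ‖L (pj x0 z)‖ := by ring
      _ ≤ _ := by gcongr

lemma exists_root {c : ℝ≥0} (hc : 1 < c) {n : ℕ} (hn : n ≠ 0) : ∃ e : ℝ≥0, 1 < e ∧ e ^ n = c :=
  ⟨c ^ ((n : ℝ)⁻¹), NNReal.one_lt_rpow hc (by positivity), NNReal.rpow_inv_natCast_pow c hn⟩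

/-- local comparison of the area of the image with the flat area -/
lemma loc_meas {x0 : E4} (h0 : x0 ∈ S3) {G : E4 → E4} {A : E4 →L[ℝ] E4}
    (hG : HasStrictFDerivAt G A x0)
    (hA : cr (A (jv 0 x0)) (A (jv 1 x0)) (A (jv 2 x0)) ≠ 0) {c : ℝ≥0} (hc : 1 < c) :
    ∃ U ∈ 𝓝 x0, ∀ B ⊆ U ∩ S3,
      μH[3] (G '' B) ≤ c * (‖cr (A (jv 0 x0)) (A (jv 1 x0)) (A (jv 2 x0))‖₊ * μH[3] (pj x0 '' B)) ∧
      ‖cr (A (jv 0 x0)) (A (jv 1 x0)) (A (jv 2 x0))‖₊ * μH[3] (pj x0 '' B) ≤ c * μH[3] (G '' B) := by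
  obtain ⟨e, he, rfl⟩ := exists_root hc (n := 3) (by norm_num)
  have he' : (1 : ℝ) < e := he
  have he0 : (0 : ℝ) < e := by linarith
  have hε : (0 : ℝ) < 1 - 1 / e := by
    rw [sub_pos, div_lt_one he0]; exact he'
  obtain ⟨δ, hδ, h1⟩ := lin_core h0 A hA hε
  have h2 := hG.isLittleO.def hδ
  rw [nhds_prod_eq] at h2
  obtain ⟨U, hU, h3⟩ := Filter.mem_prod_self_iff.1 h2
  refine ⟨U ∩ Metric.closedBall x0 δ, inter_mem hU (Metric.closedBall_mem_nhds _ hδ),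
    fun B hB => ?_⟩
  set L := col (A (jv 0 x0)) (A (jv 1 x0)) (A (jv 2 x0)) with hL
  have key : ∀ x ∈ B, ∀ y ∈ B, ‖(G x - G y) - (L (pj x0 x) - L (pj x0 y))‖ ≤
      (1 - 1 / e) * ‖L (pj x0 x) - L (pj x0 y)‖ := by
    intro x hx y hy
    rw [← map_sub, ← pj_sub]
    have h4 : ‖G x - G y - A (x - y)‖ ≤ δ * ‖x - y‖ := by
      have := h3 (mk_mem_prod (hB hx).1.1 (hB hy).1.1)
      simpa only [mem_ofPred_eq] using this
    exact (h1 x (hB hx).2 y (hB hy).2 (mem_closedBall_iff_norm.1 (hB hx).1.2)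
      (mem_closedBall_iff_norm.1 (hB hy).1.2)).2 _ h4
  have hl := L.hausdorffMeasure_image (pj x0 '' B)
  rw [finrank_euclideanSpace_fin, image_image, hL, normDet_col, ← hL, ofReal_norm,
    enorm_eq_nnnorm] at hl
  have c1 := haus_cmp G (fun x => L (pj x0 x)) B e 3 fun x hx y hy => by
    have k := key x hx y hy
    rw [dist_eq_norm, dist_eq_norm]
    have n1 := norm_sub_norm_le (G x - G y) (L (pj x0 x) - L (pj x0 y))
    have n2 : 2 - 1 / (e : ℝ) ≤ e := by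
      rw [sub_le_comm, le_div_iff₀ he0]; nlinarith
    nlinarith [norm_nonneg (L (pj x0 x) - L (pj x0 y))]
  have c2 := haus_cmp (fun x => L (pj x0 x)) G B e 3 fun x hx y hy => by
    have k := key x hx y hy
    rw [dist_eq_norm, dist_eq_norm]
    have n1 := norm_sub_norm_le (L (pj x0 x) - L (pj x0 y)) (G x - G y)
    rw [norm_sub_rev (L (pj x0 x) - L (pj x0 y))] at n1
    have n2 : 1 / (e : ℝ) * ‖L (pj x0 x) - L (pj x0 y)‖ ≤ ‖G x - G y‖ := by linarith
    rw [div_mul_eq_mul_div, one_mul, div_le_iff₀ he0] at n2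
    linarith
  rw [hl] at c1 c2
  simp only [Nat.cast_ofNat] at c1 c2
  push_cast
  exact ⟨c1, c2⟩

lemma loc_id {x0 : E4} (h0 : x0 ∈ S3) {c : ℝ≥0} (hc : 1 < c) :
    ∃ U ∈ 𝓝 x0, ∀ B ⊆ U ∩ S3,
      μH[3] B ≤ c * μH[3] (pj x0 '' B) ∧ μH[3] (pj x0 '' B) ≤ c * μH[3] B := by
  have h1 : ‖x0‖ = 1 := mem_sphere_zero_iff_norm.1 h0
  have e : cr (jv 0 x0) (jv 1 x0) (jv 2 x0) = x0 := by rw [cr_frame, h1]; simp
  have hn : ‖x0‖₊ = 1 := NNReal.eq h1
  obtain ⟨U, hU, h⟩ := loc_meas h0 (hasStrictFDerivAt_id x0)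
    (by simp only [ContinuousLinearMap.id_apply, e]; rintro rfl; simp at h1) hc
  refine ⟨U, hU, fun B hB => ?_⟩
  simpa only [ContinuousLinearMap.id_apply, e, hn, image_id, ENNReal.coe_one, one_mul] using h B hB

lemma S3_compact : IsCompact S3 := isCompact_sphere _ _

lemma S3_fin : (μH[3] : Measure E4) S3 ≠ ⊤ := by
  refine (S3_compact.measure_lt_top_of_nhdsWithin fun x hx => ?_).ne
  obtain ⟨U, hU, h⟩ := loc_id hx (c := 2) (by norm_num)
  refine ⟨U ∩ S3, inter_mem (mem_nhdsWithin_of_mem_nhds hU) self_mem_nhdsWithin, ?_⟩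
  refine (h _ subset_rfl).1.trans_lt (ENNReal.mul_lt_top ENNReal.coe_lt_top ?_)
  have h2 : (μH[((3 : ℕ) : ℝ)] : Measure E3) (pj x '' S3) < ⊤ :=
    (S3_compact.image (pj_cont x)).measure_lt_top
  simp only [Nat.cast_ofNat] at h2
  exact (measure_mono (image_mono inter_subset_right)).trans_lt h2

lemma contAt_D {F : Type*} [NormedAddCommGroup F] [NormedSpace ℝ F] {G : E4 → F} {x : E4}
    (hG : ContDiffAt ℝ 1 G x) (i : Fin 3) : ContinuousAt (D i G) x :=
  (hG.continuousAt_fderiv (by simp)).clm_apply (jv i).continuous.continuousAt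

lemma cr_cont : Continuous fun p : E4 × E4 × E4 => cr p.1 p.2.1 p.2.2 := by
  unfold cr
  refine (PiLp.continuous_toLp 2 _).comp (continuous_pi fun k => ?_)
  fin_cases k <;> simp [d3] <;> fun_prop

lemma contAt_nrm {G : E4 → E4} {x : E4} (hG : ContDiffAt ℝ 1 G x) : ContinuousAt (nrm G) x :=
  cr_cont.continuousAt.comp ((contAt_D hG 0).prodMk ((contAt_D hG 1).prodMk (contAt_D hG 2)))

/-- **Area formula** on the sphere. -/
theorem area (G : E4 → E4) (hG : ∀ x ∈ S3, ContDiffAt ℝ 1 G x) (hi : InjOn G S3)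
    (hn : ∀ x ∈ S3, nrm G x ≠ 0) (φ : E4 → ℝ) :
    ∫ y in G '' S3, φ y ∂μH[3] = ∫ x in S3, ‖nrm G x‖ * φ (G x) ∂μH[3] := by
  have : CompactSpace S3 := isCompact_iff_compactSpace.1 S3_compact
  have hc : Continuous fun x : S3 => G x :=
    continuousOn_iff_continuous_domRestrict.1 fun x hx => (hG x hx).continuousAt.continuousWithinAt
  have hm : MeasurableEmbedding fun x : S3 => G x :=
    (hc.isClosedEmbedding fun x y h => Subtype.ext (hi x.2 y.2 h)).measurableEmbedding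
  have hv : MeasurableEmbedding (Subtype.val : S3 → E4) :=
    MeasurableEmbedding.subtype_coe S3_compact.measurableSet
  have hJ : Continuous fun x : S3 => ‖nrm G x‖₊ :=
    (continuousOn_iff_continuous_domRestrict.1
      fun x hx => (contAt_nrm (hG x hx)).continuousWithinAt).nnnorm
  have key := eq_withDensity_of_loc (Measure.comap (Subtype.val : S3 → E4) μH[3])
    (Measure.comap (fun x : S3 => G x) μH[3]) _ hJ (fun x => nnnorm_pos.2 (hn x x.2)) (by
      intro x c hc1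
      obtain ⟨e, he, rfl⟩ := exists_root hc1 (n := 2) (by norm_num)
      obtain ⟨U, hU, h1⟩ := loc_meas x.2 ((hG x x.2).hasStrictFDerivAt (by simp)) (hn x x.2) he
      obtain ⟨V, hV, h2⟩ := loc_id x.2 he
      refine ⟨Subtype.val ⁻¹' (U ∩ V),
        continuous_subtype_val.continuousAt.preimage_mem_nhds (inter_mem hU hV), fun B hB _ => ?_⟩
      rw [hm.comap_apply, hv.comap_apply, ← image_image G Subtype.val]
      obtain ⟨a1, a2⟩ := h1 (Subtype.val '' B) (by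
        rintro _ ⟨y, hy, rfl⟩; exact ⟨(hB hy).1, y.2⟩)
      obtain ⟨b1, b2⟩ := h2 (Subtype.val '' B) (by
        rintro _ ⟨y, hy, rfl⟩; exact ⟨(hB hy).2, y.2⟩)
      have en : cr (fderiv ℝ G x (jv 0 x)) (fderiv ℝ G x (jv 1 x)) (fderiv ℝ G x (jv 2 x)) =
        nrm G x := rfl
      rw [en] at a1 a2
      push_cast
      constructor
      · calc _ ≤ _ := a1
          _ ≤ (e : ℝ≥0∞) * (‖nrm G x‖₊ * (e * μH[3] (Subtype.val '' B))) := by gcongr
          _ = _ := by ring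
      · calc _ ≤ (‖nrm G x‖₊ : ℝ≥0∞) * (e * μH[3] (pj x '' (Subtype.val '' B))) := by gcongr
          _ = e * (‖nrm G x‖₊ * μH[3] (pj x '' (Subtype.val '' B))) := by ring
          _ ≤ e * (e * μH[3] (G '' (Subtype.val '' B))) := by gcongr
          _ = _ := by ring)
  have hr : G '' S3 = range fun x : S3 => G x := image_eq_range G S3
  rw [hr, ← hm.map_comap, hm.integral_map, key,
    integral_withDensity_eq_integral_smul hJ.measurable,
    ← integral_subtype_comap S3_compact.measurableSet]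
  rfl

end Pool.Agent.MP_48470b_gt.Geo
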