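import Pool.Agent.MP_48470b_gt.Geo.Area

/-! Calculus along the frame fields: rotations, integration by parts, product rules. -/

set_option autoImplicit false
set_option maxHeartbeats 400000
open MeasureTheory Set Filter Topology
open scoped ENNReal NNReal InnerProductSpace

namespace Pool.Agent.MP_48470b_gt.Geo

/-- flow of the `i`-th frame field -/
noncomputable def rot (i : Fin 3) (s : ℝ) (x : E4) : E4 := Real.cos s • x + Real.sin s • jv i x

lemma rot_zero (i : Fin 3) (x : E4) : rot i 0 x = x := by simp [rot]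

lemma rot_norm (i : Fin 3) (s : ℝ) (x : E4) : ‖rot i s x‖ = ‖x‖ := by
  rw [← sq_eq_sq₀ (norm_nonneg _) (norm_nonneg _), rot, norm_add_sq_real, inner_smul_left,
    inner_smul_right, jv_perp, norm_smul, norm_smul, jv_norm, mul_pow, mul_pow, Real.norm_eq_abs,
    Real.norm_eq_abs, sq_abs, sq_abs]
  linear_combination ‖x‖ ^ 2 * Real.cos_sq_add_sin_sq s

lemma rot_sub (i : Fin 3) (s : ℝ) (x y : E4) : rot i s x - rot i s y = rot i s (x - y) := by
  simp only [rot, map_sub, smul_sub]; abel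

lemma rot_neg (i : Fin 3) (s : ℝ) (x : E4) : rot i s (rot i (-s) x) = x := by
  have h := Real.cos_sq_add_sin_sq s
  simp only [rot, map_add, map_smul, jjii, Real.cos_neg, Real.sin_neg, smul_add, smul_smul,
    smul_neg]
  have : x = (Real.cos s * Real.cos s + Real.sin s * Real.sin s) • x := by
    rw [show Real.cos s * Real.cos s + Real.sin s * Real.sin s = 1 by linarith, one_smul]
  conv_rhs => rw [this]
  module

lemma rot_mem {i : Fin 3} {s : ℝ} {x : E4} : rot i s x ∈ S3 ↔ x ∈ S3 := by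
  simp only [mem_sphere_zero_iff_norm, rot_norm]

lemma rot_deriv (i : Fin 3) (x : E4) : HasDerivAt (fun s => rot i s x) (jv i x) 0 := by
  refine (((Real.hasDerivAt_cos 0).smul_const x).add
    ((Real.hasDerivAt_sin 0).smul_const (jv i x))).congr_deriv ?_
  simp

lemma rot_smooth (i : Fin 3) : ContDiff ℝ 1 fun p : ℝ × E4 => rot i p.1 p.2 := by
  unfold rot; fun_prop

lemma integral_rot (i : Fin 3) (s : ℝ) (h : E4 → ℝ) :
    ∫ x in S3, h (rot i s x) ∂μH[3] = ∫ x in S3, h x ∂μH[3] := by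
  have hi : Isometry (rot i s) := Isometry.of_dist_eq fun x y => by
    rw [dist_eq_norm, dist_eq_norm, rot_sub, rot_norm]
  have hs : Function.Surjective (rot i s) := fun x => ⟨_, rot_neg i s x⟩
  have hm := hi.map_hausdorffMeasure (d := 3) (Or.inr hs)
  rw [hs.range_eq, Measure.restrict_univ] at hm
  have he : rot i s ⁻¹' S3 = S3 := by ext x; exact rot_mem
  have := hi.isClosedEmbedding.measurableEmbedding.setIntegral_map (μ := μH[3]) h S3
  rw [hm, he] at this
  exact this.symm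

section
variable {F : Type*} [NormedAddCommGroup F] [NormedSpace ℝ F]

lemma dD {h : E4 → F} {x : E4} (hd : DifferentiableAt ℝ h x) (i : Fin 3) :
    HasDerivAt (fun s => h (rot i s x)) (D i h x) 0 := by
  have h1 : HasFDerivAt h (fderiv ℝ h x) (rot i 0 x) := by rw [rot_zero]; exact hd.hasFDerivAt
  exact h1.comp_hasDerivAt 0 (rot_deriv i x)

/-- the frame derivative on the sphere only depends on the restriction to the sphere -/
lemma D_congr {h k : E4 → F} {x : E4} (hx : x ∈ S3) (hd : DifferentiableAt ℝ h x)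
    (kd : DifferentiableAt ℝ k x) (e : EqOn h k S3) (i : Fin 3) : D i h x = D i k x := by
  have h1 := dD hd i
  rw [show (fun s => h (rot i s x)) = fun s => k (rot i s x) from
    funext fun s => e (rot_mem.2 hx)] at h1
  exact h1.unique (dD kd i)

lemma contDiffAt_D {n m : WithTop ℕ∞} {h : E4 → F} {x : E4} (hd : ContDiffAt ℝ n h x)
    (hm : m + 1 ≤ n) (i : Fin 3) : ContDiffAt ℝ m (D i h) x :=
  (hd.fderiv_right hm).clm_apply (jv i).contDiff.contDiffAt

lemma DD_eq {h : E4 → F} {x : E4} (hd : ContDiffAt ℝ 2 h x) (i j : Fin 3) :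
    D i (D j h) x = fderiv ℝ (fderiv ℝ h) x (jv i x) (jv j x) + fderiv ℝ h x (jv j (jv i x)) := by
  have h1 : DifferentiableAt ℝ (fderiv ℝ h) x :=
    (hd.fderiv_right (m := 1) (by norm_num)).differentiableAt (by simp)
  have h2 := (h1.hasFDerivAt.clm_apply (jv j).hasFDerivAt).fderiv
  change fderiv ℝ (fun y => fderiv ℝ h y (jv j y)) x (jv i x) = _
  rw [h2]
  simp [add_comm]

lemma DD_comm {h : E4 → F} {x : E4} (hd : ContDiffAt ℝ 2 h x) (i j : Fin 3) :
    D i (D j h) x = D j (D i h) x + fderiv ℝ h x (jv j (jv i x) - jv i (jv j x)) := by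
  rw [DD_eq hd, DD_eq hd, (hd.isSymmSndFDerivAt (by simp)) (jv i x) (jv j x), map_sub]
  abel

lemma DD10 {h : E4 → F} {x : E4} (hd : ContDiffAt ℝ 2 h x) :
    D 0 (D 1 h) x = D 1 (D 0 h) x + (2 : ℝ) • D 2 h x := by
  rw [DD_comm hd, jj10, jj01, map_sub, map_neg]; simp only [D]; module
lemma DD21 {h : E4 → F} {x : E4} (hd : ContDiffAt ℝ 2 h x) :
    D 1 (D 2 h) x = D 2 (D 1 h) x + (2 : ℝ) • D 0 h x := by
  rw [DD_comm hd, jj21, jj12, map_sub, map_neg]; simp only [D]; module
lemma DD20 {h : E4 → F} {x : E4} (hd : ContDiffAt ℝ 2 h x) :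
    D 0 (D 2 h) x = D 2 (D 0 h) x + (-2 : ℝ) • D 1 h x := by
  rw [DD_comm hd, jj20, jj02, map_sub, map_neg]; simp only [D]; module
end

/-- **Integration by parts**: the frame fields are divergence free. -/
theorem integral_D (i : Fin 3) (h : E4 → ℝ) (hh : ∀ x ∈ S3, ContDiffAt ℝ 1 h x) :
    ∫ x in S3, D i h x ∂μH[3] = 0 := by
  have ha : ∀ x ∈ S3, ContDiffAt ℝ 1 (fun p : ℝ × E4 => h (rot i p.1 p.2)) (0, x) := by
    intro x hx
    have h1 : ContDiffAt ℝ 1 h (rot i ((0 : ℝ), x).1 ((0 : ℝ), x).2) := by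
      simpa only [rot_zero] using hh x hx
    exact h1.comp (0, x) (rot_smooth i).contDiffAt
  have h1 := deriv_setIntegral μH[3] S3_compact S3_fin _ ha
  simp only [integral_rot] at h1
  rw [← h1.unique (hasDerivAt_const _ _)]
  refine setIntegral_congr_fun S3_compact.measurableSet fun x hx => ?_
  have h2 := ((ha x hx).differentiableAt (by simp)).hasFDerivAt.comp_hasDerivAt (0 : ℝ)
    ((hasDerivAt_id (0 : ℝ)).prodMk (hasDerivAt_const (0 : ℝ) x))
  exact (dD ((hh x hx).differentiableAt (by simp)) i).unique h2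

lemma hd_coord {a : ℝ → E4} {a' : E4} {t : ℝ} (h : HasDerivAt a a' t) (k : Fin 4) :
    HasDerivAt (fun s => a s k) (a' k) t :=
  (EuclideanSpace.proj (𝕜 := ℝ) k).hasFDerivAt.comp_hasDerivAt t h

lemma hd_d3 {a b c : ℝ → E4} {a' b' c' : E4} {t : ℝ} (ha : HasDerivAt a a' t)
    (hb : HasDerivAt b b' t) (hc : HasDerivAt c c' t) (p q r : Fin 4) :
    HasDerivAt (fun s => d3 (a s) (b s) (c s) p q r)
      (d3 a' (b t) (c t) p q r + d3 (a t) b' (c t) p q r + d3 (a t) (b t) c' p q r) t := by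
  have A := hd_coord ha
  have B := hd_coord hb
  have C := hd_coord hc
  refine ((((A p).mul (((B q).mul (C r)).sub ((B r).mul (C q)))).sub
    ((A q).mul (((B p).mul (C r)).sub ((B r).mul (C p))))).add
    ((A r).mul (((B p).mul (C q)).sub ((B q).mul (C p))))).congr_deriv ?_
  simp only [d3, Pi.sub_apply, Pi.mul_apply]; ring

lemma hd_dt {m a b c : ℝ → E4} {m' a' b' c' : E4} {t : ℝ} (hm : HasDerivAt m m' t)
    (ha : HasDerivAt a a' t) (hb : HasDerivAt b b' t) (hc : HasDerivAt c c' t) :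
    HasDerivAt (fun s => dt (m s) (a s) (b s) (c s))
      (dt m' (a t) (b t) (c t) + dt (m t) a' (b t) (c t) + dt (m t) (a t) b' (c t) +
        dt (m t) (a t) (b t) c') t := by
  have M := hd_coord hm
  have H := hd_d3 ha hb hc
  simp only [dt_eq]
  refine (((((M 0).mul (H 1 2 3)).sub ((M 1).mul (H 0 2 3))).add ((M 2).mul (H 0 1 3))).sub
    ((M 3).mul (H 0 1 2))).congr_deriv ?_
  ring

lemma hd_norm_cr {a b c : ℝ → E4} {a' b' c' : E4} {t : ℝ} (ha : HasDerivAt a a' t)
    (hb : HasDerivAt b b' t) (hc : HasDerivAt c c' t) (h0 : cr (a t) (b t) (c t) ≠ 0) :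
    HasDerivAt (fun s => ‖cr (a s) (b s) (c s)‖)
      ((dt (cr (a t) (b t) (c t)) a' (b t) (c t) + dt (cr (a t) (b t) (c t)) (a t) b' (c t) +
        dt (cr (a t) (b t) (c t)) (a t) (b t) c') / ‖cr (a t) (b t) (c t)‖) t := by
  have H := hd_d3 ha hb hc
  have h1 : HasDerivAt (fun s => ‖cr (a s) (b s) (c s)‖ ^ 2)
      (2 * (dt (cr (a t) (b t) (c t)) a' (b t) (c t) + dt (cr (a t) (b t) (c t)) (a t) b' (c t) +
        dt (cr (a t) (b t) (c t)) (a t) (b t) c')) t := by
    simp only [nsq4, dt_eq, cr0, cr1, cr2, cr3, even_two, Even.neg_pow]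
    refine (((((H 1 2 3).pow 2).add ((H 0 2 3).pow 2)).add ((H 0 1 3).pow 2)).add
      ((H 0 1 2).pow 2)).congr_deriv ?_
    simp only [Nat.cast_ofNat]; ring
  have hn : ‖cr (a t) (b t) (c t)‖ ≠ 0 := norm_ne_zero_iff.2 h0
  have h2 := h1.sqrt (pow_ne_zero 2 hn)
  simp only [Real.sqrt_sq (norm_nonneg _)] at h2
  refine h2.congr_deriv ?_
  field_simp

lemma cd_cr {X : Type*} [NormedAddCommGroup X] [NormedSpace ℝ X] {n : WithTop ℕ∞}
    {a b c : X → E4} {x : X} (ha : ContDiffAt ℝ n a x) (hb : ContDiffAt ℝ n b x)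
    (hc : ContDiffAt ℝ n c x) : ContDiffAt ℝ n (fun y => cr (a y) (b y) (c y)) x := by
  have A := contDiffAt_euclidean.1 ha
  have B := contDiffAt_euclidean.1 hb
  have C := contDiffAt_euclidean.1 hc
  have H : ∀ p q r, ContDiffAt ℝ n (fun y => d3 (a y) (b y) (c y) p q r) x := fun p q r =>
    ((((A p).mul (((B q).mul (C r)).sub ((B r).mul (C q)))).sub
      ((A q).mul (((B p).mul (C r)).sub ((B r).mul (C p))))).add
      ((A r).mul (((B p).mul (C q)).sub ((B q).mul (C p)))))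
  refine contDiffAt_euclidean.2 fun k => ?_
  fin_cases k
  · exact H 1 2 3
  · exact (H 0 2 3).neg
  · exact H 0 1 3
  · exact (H 0 1 2).neg

lemma cd_dt {X : Type*} [NormedAddCommGroup X] [NormedSpace ℝ X] {n : WithTop ℕ∞}
    {m a b c : X → E4} {x : X} (hm : ContDiffAt ℝ n m x) (ha : ContDiffAt ℝ n a x)
    (hb : ContDiffAt ℝ n b x) (hc : ContDiffAt ℝ n c x) :
    ContDiffAt ℝ n (fun y => dt (m y) (a y) (b y) (c y)) x :=
  hm.inner ℝ (cd_cr ha hb hc)

end Pool.Agent.MP_48470b_gt.Geo
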