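import Pool.Agent.MP_48470b_gt.Geo.Var

/-! A solution of the pointwise equation is critical for the Gaussian area. -/

set_option autoImplicit false
set_option maxHeartbeats 400000
open MeasureTheory Set Filter Topology
open scoped ENNReal NNReal InnerProductSpace

namespace Pool.Agent.MP_48470b_gt.Geo

variable {F : ℝ × E4 → E4}

/-- time slice -/
def sl (F : ℝ × E4 → E4) (t : ℝ) (y : E4) : E4 := F (t, y)

/-- variation field -/
noncomputable def vf (F : ℝ × E4 → E4) (y : E4) : E4 := fderiv ℝ F (0, y) (1, 0)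

lemma hf_sl {t : ℝ} {y : E4} (h : DifferentiableAt ℝ F (t, y)) :
    HasFDerivAt (sl F t) ((fderiv ℝ F (t, y)).comp (ContinuousLinearMap.inr ℝ ℝ E4)) y :=
  h.hasFDerivAt.comp y (hasFDerivAt_prodMk_right t y)

lemma D_sl {t : ℝ} {y : E4} (h : DifferentiableAt ℝ F (t, y)) (i : Fin 3) :
    D i (sl F t) y = fderiv ℝ F (t, y) (0, jv i y) := by
  rw [D, (hf_sl h).fderiv]; rfl

lemma cd_sl {n : WithTop ℕ∞} {t : ℝ} {y : E4} (h : ContDiffAt ℝ n F (t, y)) :
    ContDiffAt ℝ n (sl F t) y :=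
  h.comp y (contDiffAt_const.prodMk contDiffAt_id)

lemma cd_vf {y : E4} (h : ContDiffAt ℝ 2 F (0, y)) : ContDiffAt ℝ 1 (vf F) y :=
  (((h.fderiv_right (m := 1) (by norm_num)).comp y
    (contDiffAt_const.prodMk contDiffAt_id))).clm_apply contDiffAt_const

lemma ev_diff {p : ℝ × E4} (h : ContDiffAt ℝ 2 F p) : ∀ᶠ q in 𝓝 p, DifferentiableAt ℝ F q :=
  (h.eventually (by simp)).mono fun _ hq => hq.differentiableAt (by simp)

lemma cd_D_sl {p : ℝ × E4} (h : ContDiffAt ℝ 2 F p) (i : Fin 3) :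
    ContDiffAt ℝ 1 (fun q : ℝ × E4 => D i (sl F q.1) q.2) p := by
  have h1 : ContDiffAt ℝ 1 (fun q : ℝ × E4 => fderiv ℝ F q (0, jv i q.2)) p :=
    (h.fderiv_right (m := 1) (by norm_num)).clm_apply
      (contDiffAt_const.prodMk ((jv i).contDiff.contDiffAt.comp p contDiffAt_snd))
  exact h1.congr_of_eventuallyEq ((ev_diff h).mono fun q hq => D_sl hq i)

lemma line_deriv (x : E4) : HasDerivAt (fun t : ℝ => (t, x)) ((1 : ℝ), (0 : E4)) 0 :=
  (hasDerivAt_id (0 : ℝ)).prodMk (hasDerivAt_const (0 : ℝ) x)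

lemma hd_fderiv {Y : Type*} [NormedAddCommGroup Y] [NormedSpace ℝ Y] {G : Y → E4} {γ : ℝ → Y}
    {u : Y} (h : ContDiffAt ℝ 2 G (γ 0)) (hγ : HasDerivAt γ u 0) (v : Y) :
    HasDerivAt (fun t => fderiv ℝ G (γ t) v) (fderiv ℝ (fderiv ℝ G) (γ 0) u v) 0 := by
  have h1 : DifferentiableAt ℝ (fderiv ℝ G) (γ 0) :=
    (h.fderiv_right (m := 1) (by norm_num)).differentiableAt (by simp)
  refine ((h1.hasFDerivAt.comp_hasDerivAt (0 : ℝ) hγ).clm_apply
    (hasDerivAt_const (0 : ℝ) v)).congr_deriv ?_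
  simp

lemma hd_D_sl {x : E4} (h : ContDiffAt ℝ 2 F (0, x)) (i : Fin 3) :
    HasDerivAt (fun t => D i (sl F t) x) (D i (vf F) x) 0 := by
  have h2 : HasDerivAt (fun t : ℝ => fderiv ℝ F (t, x) (0, jv i x))
      (fderiv ℝ (fderiv ℝ F) (0, x) (1, 0) (0, jv i x)) 0 :=
    hd_fderiv (γ := fun t : ℝ => (t, x)) h (line_deriv x) _
  have h3 : HasDerivAt (fun s : ℝ => fderiv ℝ F (0, rot i s x) (1, 0))
      (fderiv ℝ (fderiv ℝ F) (0, rot i 0 x) (0, jv i x) (1, 0)) 0 :=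
    hd_fderiv (γ := fun s : ℝ => ((0 : ℝ), rot i s x)) (by simpa only [rot_zero] using h)
      ((hasDerivAt_const (0 : ℝ) (0 : ℝ)).prodMk (rot_deriv i x)) _
  rw [rot_zero] at h3
  rw [(dD ((cd_vf h).differentiableAt (by simp)) i).unique h3,
    (h.isSymmSndFDerivAt (by simp)) (0, jv i x) (1, 0)]
  refine h2.congr_of_eventuallyEq ?_
  filter_upwards [(line_deriv x).continuousAt.eventually (ev_diff h)] with t ht
  exact D_sl ht i

/-- the area density -/
noncomputable def den (F : ℝ × E4 → E4) (q : ℝ × E4) : ℝ :=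
  ‖nrm (sl F q.1) q.2‖ * gw (sl F q.1 q.2)

lemma cd_nrm_sl {p : ℝ × E4} (h : ContDiffAt ℝ 2 F p) :
    ContDiffAt ℝ 1 (fun q : ℝ × E4 => nrm (sl F q.1) q.2) p :=
  cd_cr (cd_D_sl h 0) (cd_D_sl h 1) (cd_D_sl h 2)

lemma cd_den {x : E4} (h : ContDiffAt ℝ 2 F (0, x)) (hn : nrm (sl F 0) x ≠ 0) :
    ContDiffAt ℝ 1 (den F) (0, x) :=
  ((cd_nrm_sl h).norm ℝ hn).mul (cd_gw.contDiffAt.comp (0, x) (h.of_le (by norm_num)))

lemma den_deriv {x : E4} (h : ContDiffAt ℝ 2 F (0, x)) (hn : nrm (sl F 0) x ≠ 0)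
    (hN : Nres (sl F 0) x = 0) : fderiv ℝ (den F) (0, x) (1, 0) =
      D 0 (fl0 (sl F 0) (vf F)) x + D 1 (fl1 (sl F 0) (vf F)) x + D 2 (fl2 (sl F 0) (vf F)) x := by
  have h1 := ((cd_den h hn).differentiableAt (by simp)).hasFDerivAt.comp_hasDerivAt (0 : ℝ)
    (line_deriv x)
  have h2 : HasDerivAt (fun t => sl F t x) (vf F x) 0 :=
    (h.differentiableAt (by simp)).hasFDerivAt.comp_hasDerivAt (0 : ℝ) (line_deriv x)
  have h3 := (hd_norm_cr (hd_D_sl h 0) (hd_D_sl h 1) (hd_D_sl h 2) hn).mul (hd_gw h2)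
  rw [h1.unique h3, div_flux (cd_sl h) (cd_vf h) hn hN]
  simp only [dt, mu, real_inner_smul_left, nrm]
  ring

lemma ev_inj (h : ∀ x ∈ S3, ContDiffAt ℝ 2 F (0, x)) (hi : InjOn (sl F 0) S3)
    (hn : ∀ x ∈ S3, nrm (sl F 0) x ≠ 0) : ∀ᶠ t in 𝓝 (0 : ℝ), InjOn (sl F t) S3 := by
  have key := (S3_compact.prod S3_compact).eventually_forall_of_forall_eventually (x₀ := (0 : ℝ))
    (P := fun t p => p.1 ∈ S3 → p.2 ∈ S3 → sl F t p.1 = sl F t p.2 → p.1 = p.2) (by
      rintro ⟨x, y⟩ ⟨hx, hy⟩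
      have c1 : Tendsto (fun z : ℝ × E4 × E4 => (z.1, z.2.1)) (𝓝 (0, x, y)) (𝓝 (0, x)) :=
        (by fun_prop : Continuous fun z : ℝ × E4 × E4 => (z.1, z.2.1)).tendsto _
      have c2 : Tendsto (fun z : ℝ × E4 × E4 => (z.1, z.2.2)) (𝓝 (0, x, y)) (𝓝 (0, y)) :=
        (by fun_prop : Continuous fun z : ℝ × E4 × E4 => (z.1, z.2.2)).tendsto _
      by_cases e : x = y
      · subst e
        have hd := (h x hx).differentiableAt (by simp)
        have hA := hn x hx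
        simp only [nrm, D, (hf_sl hd).fderiv] at hA
        obtain ⟨δ, hδ, h1⟩ := lin_core hx _ hA (ε := 1 / 2) (by norm_num)
        have h2 := (c1.prodMk_nhds c2).eventually
          (((h x hx).hasStrictFDerivAt (by simp)).isLittleO.def hδ)
        have b : ∀ᶠ q : ℝ × E4 in 𝓝 (0, x), ‖q.2 - x‖ ≤ δ := by
          have : Continuous fun q : ℝ × E4 => ‖q.2 - x‖ := by fun_prop
          exact (this.tendsto _).eventually (ge_mem_nhds (by simpa using hδ))
        filter_upwards [h2, c1.eventually b, c2.eventually b] with z z1 z2 z3 m1 m2 he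
        obtain ⟨k1, k2⟩ := h1 _ m1 _ m2 z2 z3
        have k3 := k2 0 (by
          simp only [sl] at he
          simp only [he, sub_self, Prod.mk_sub_mk, Prod.norm_def, norm_zero,
            max_eq_right (norm_nonneg _)] at z1
          exact z1)
        rw [zero_sub, norm_neg] at k3
        exact k1 (norm_le_zero_iff.1 (by linarith))
      · have h2 : F (0, x) ≠ F (0, y) := fun e' => e (hi hx hy e')
        have h3 := ((h x hx).continuousAt.tendsto.comp c1).prodMk_nhds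
          ((h y hy).continuousAt.tendsto.comp c2)
        filter_upwards [h3.eventually (isOpen_ne_fun continuous_fst continuous_snd |>.mem_nhds h2)]
          with z hz _ _ he
        exact absurd he hz)
  filter_upwards [key] with t ht x hx y hy e
  exact ht (x, y) ⟨hx, hy⟩ hx hy e

/-- **First variation.** -/
theorem var_core (h : ∀ x ∈ S3, ContDiffAt ℝ 2 F (0, x)) (hi : InjOn (sl F 0) S3)
    (hn : ∀ x ∈ S3, nrm (sl F 0) x ≠ 0) (hN : ∀ x ∈ S3, Nres (sl F 0) x = 0) :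
    HasDerivAt (fun t => ∫ y in sl F t '' S3, gw y ∂μH[3]) 0 0 := by
  have h1 := deriv_setIntegral μH[3] S3_compact S3_fin (den F) fun x hx => cd_den (h x hx) (hn x hx)
  have c := fun x hx j => contDiffAt_D (m := 1) (cd_sl (h x hx)) (by norm_num) j
  have m := fun x hx => cd_mu (cd_sl (h x hx)) (hn x hx)
  have v := fun x hx => cd_vf (h x hx)
  have f0 : ∀ x ∈ S3, ContDiffAt ℝ 1 (fl0 (sl F 0) (vf F)) x := fun x hx =>
    cd_dt (m x hx) (v x hx) (c x hx 1) (c x hx 2)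
  have f1 : ∀ x ∈ S3, ContDiffAt ℝ 1 (fl1 (sl F 0) (vf F)) x := fun x hx =>
    cd_dt (m x hx) (c x hx 0) (v x hx) (c x hx 2)
  have f2 : ∀ x ∈ S3, ContDiffAt ℝ 1 (fl2 (sl F 0) (vf F)) x := fun x hx =>
    cd_dt (m x hx) (c x hx 0) (c x hx 1) (v x hx)
  have ig : ∀ {g : E4 → ℝ}, (∀ x ∈ S3, ContDiffAt ℝ 1 g x) → ∀ i, IntegrableOn (D i g) S3 μH[3] :=
    fun hg i => ContinuousOn.integrableOn_of_subset_isCompact
      (fun x hx => (contAt_D (hg x hx) i).continuousWithinAt) S3_compact S3_compact.measurableSet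
      subset_rfl S3_fin
  rw [setIntegral_congr_fun S3_compact.measurableSet
    fun x hx => den_deriv (h x hx) (hn x hx) (hN x hx),
    integral_add (f := fun x => D 0 (fl0 (sl F 0) (vf F)) x + D 1 (fl1 (sl F 0) (vf F)) x)
      ((ig f0 0).add (ig f1 1)) (ig f2 2), integral_add (ig f0 0) (ig f1 1),
    integral_D 0 _ f0, integral_D 1 _ f1, integral_D 2 _ f2, add_zero, add_zero] at h1
  refine h1.congr_of_eventuallyEq ?_
  have e1 := S3_compact.eventually_forall_of_forall_eventually (x₀ := (0 : ℝ))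
    (P := fun t x => ContDiffAt ℝ 2 F (t, x) ∧ nrm (sl F t) x ≠ 0) fun x hx =>
      ((h x hx).eventually (by simp)).and
        ((cd_nrm_sl (h x hx)).continuousAt.eventually_ne (hn x hx))
  filter_upwards [e1, ev_inj h hi hn] with t ht hi'
  exact area (sl F t) (fun x hx => (cd_sl (ht x hx).1).of_le (by norm_num)) hi'
    (fun x hx => (ht x hx).2) gw

end Pool.Agent.MP_48470b_gt.Geo
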