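import Pool.Agent.MP_48470b_gt.Geo.Calc

/-! First variation of the Gaussian area: pointwise divergence identity. -/

set_option autoImplicit false
set_option maxHeartbeats 400000
open MeasureTheory Set Filter Topology
open scoped ENNReal NNReal InnerProductSpace

namespace Pool.Agent.MP_48470b_gt.Geo

/-- induced metric in the frame -/
noncomputable def gm (G : E4 → E4) (x : E4) : Matrix (Fin 3) (Fin 3) ℝ :=
  Matrix.of fun i j => ⟪D i G x, D j G x⟫_ℝ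

/-- polynomial form of the self-shrinker equation -/
noncomputable def Nres (G : E4 → E4) (x : E4) : ℝ :=
  ∑ i, ∑ j, (gm G x).adjugate i j * ⟪D i (D j G) x, nrm G x⟫_ℝ +
    (gm G x).det * ⟪G x, nrm G x⟫_ℝ / 2

/-- Gaussian weight -/
noncomputable def gw (y : E4) : ℝ := Real.exp (-‖y‖ ^ 2 / 4)

lemma dt_c0 (n a b c : E4) (α p q r s u v t : ℝ) :
    dt (α • n + p • a + q • b + r • c) (s • n + u • a + v • b + t • c) b c =
      (α * u - p * s) * dt n a b c := by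
  simp only [dt_eq, d3, PiLp.add_apply, PiLp.smul_apply, smul_eq_mul]; ring
lemma dt_c1 (n a b c : E4) (α p q r s u v t : ℝ) :
    dt (α • n + p • a + q • b + r • c) a (s • n + u • a + v • b + t • c) c =
      (α * v - q * s) * dt n a b c := by
  simp only [dt_eq, d3, PiLp.add_apply, PiLp.smul_apply, smul_eq_mul]; ring
lemma dt_c2 (n a b c : E4) (α p q r s u v t : ℝ) :
    dt (α • n + p • a + q • b + r • c) a b (s • n + u • a + v • b + t • c) =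
      (α * t - r * s) * dt n a b c := by
  simp only [dt_eq, d3, PiLp.add_apply, PiLp.smul_apply, smul_eq_mul]; ring

lemma trace_adj (a : Fin 3 → E4) (β : Fin 3 → Fin 3 → ℝ) :
    ∑ i, ∑ j, (Matrix.of fun i j => ⟪a i, a j⟫_ℝ).adjugate i j *
      (β i 0 * ⟪a 0, a j⟫_ℝ + β i 1 * ⟪a 1, a j⟫_ℝ + β i 2 * ⟪a 2, a j⟫_ℝ) =
    (Matrix.of fun i j => ⟪a i, a j⟫_ℝ).det * (β 0 0 + β 1 1 + β 2 2) := by
  rw [Matrix.adjugate_fin_three, Matrix.det_fin_three]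
  simp only [Fin.sum_univ_three, Matrix.of_apply, Matrix.cons_val', Matrix.cons_val_zero,
    Matrix.cons_val_one, Matrix.cons_val, Matrix.cons_val_fin_one, real_inner_comm (a 0) (a 1),
    real_inner_comm (a 0) (a 2), real_inner_comm (a 1) (a 2)]
  ring

lemma key_alg (X V : E4) (a m : Fin 3 → E4) (b : Fin 3 → Fin 3 → E4) (w : ℝ) (n : E4)
    (e : n = cr (a 0) (a 1) (a 2)) (hn : n ≠ 0)
    (h1 : ∀ i, ⟪m i, n⟫_ℝ = -(w / 2) * ‖n‖ * ⟪X, a i⟫_ℝ)
    (h2 : ∀ i j, ⟪m i, a j⟫_ℝ = -(w / ‖n‖) * ⟪b i j, n⟫_ℝ)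
    (hN : ∑ i, ∑ j, (Matrix.of fun i j => ⟪a i, a j⟫_ℝ).adjugate i j * ⟪b i j, n⟫_ℝ +
      (Matrix.of fun i j => ⟪a i, a j⟫_ℝ).det * ⟪X, n⟫_ℝ / 2 = 0) :
    dt (m 0) V (a 1) (a 2) + dt (m 1) (a 0) V (a 2) + dt (m 2) (a 0) (a 1) V =
      -(w * ‖n‖ / 2) * ⟪X, V⟫_ℝ := by
  have hn' : cr (a 0) (a 1) (a 2) ≠ 0 := e ▸ hn
  choose α β0 β1 β2 hm using fun i => exists_coef hn' (m i)
  obtain ⟨s, u, v, t, hV⟩ := exists_coef hn' V
  rw [← e] at hm hV
  have hJ : ‖n‖ ≠ 0 := norm_ne_zero_iff.2 hn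
  have hd : dt n (a 0) (a 1) (a 2) = ‖n‖ ^ 2 := by rw [dt, ← e, real_inner_self_eq_norm_sq]
  have p : ∀ j, ⟪n, a j⟫_ℝ = 0 := by
    intro j; rw [real_inner_comm, e]
    fin_cases j
    exacts [cr_perp0 _ _ _, cr_perp1 _ _ _, cr_perp2 _ _ _]
  have p' : ∀ j, ⟪a j, n⟫_ℝ = 0 := fun j => by rw [real_inner_comm, p]
  have k1 : ∀ i, α i * ‖n‖ ^ 2 = -(w / 2) * ‖n‖ * ⟪X, a i⟫_ℝ := fun i => by
    rw [← h1, hm i]
    simp only [inner_add_left, real_inner_smul_left, p', real_inner_self_eq_norm_sq]; ring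
  have k2 : ∀ i j, β0 i * ⟪a 0, a j⟫_ℝ + β1 i * ⟪a 1, a j⟫_ℝ + β2 i * ⟪a 2, a j⟫_ℝ =
      -(w / ‖n‖) * ⟪b i j, n⟫_ℝ := fun i j => by
    rw [← h2, hm i]
    simp only [inner_add_left, real_inner_smul_left, p]; ring
  have k3 := trace_adj a fun i => ![β0 i, β1 i, β2 i]
  simp only [Matrix.cons_val_zero, Matrix.cons_val_one, Matrix.cons_val, k2] at k3
  rw [det_gram, ← e] at hN k3
  have k4 : ‖n‖ ^ 2 * (β0 0 + β1 1 + β2 2) = w * ‖n‖ * ⟪X, n⟫_ℝ / 2 := by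
    rw [← k3]
    have : ∑ i, ∑ j, (Matrix.of fun i j => ⟪a i, a j⟫_ℝ).adjugate i j *
        (-(w / ‖n‖) * ⟪b i j, n⟫_ℝ) = -(w / ‖n‖) *
        ∑ i, ∑ j, (Matrix.of fun i j => ⟪a i, a j⟫_ℝ).adjugate i j * ⟪b i j, n⟫_ℝ := by
      simp only [Finset.mul_sum]
      exact Finset.sum_congr rfl fun i _ => Finset.sum_congr rfl fun j _ => by ring
    rw [this, eq_neg_of_add_eq_zero_left hN]
    field_simp
  have eV : ⟪X, V⟫_ℝ = s * ⟪X, n⟫_ℝ + u * ⟪X, a 0⟫_ℝ + v * ⟪X, a 1⟫_ℝ + t * ⟪X, a 2⟫_ℝ := by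
    rw [hV]; simp only [inner_add_right, real_inner_smul_right]
  rw [eV, hm 0, hm 1, hm 2, hV, dt_c0, dt_c1, dt_c2, hd]
  linear_combination u * k1 0 + v * k1 1 + t * k1 2 - s * k4

lemma hd_gw {a : ℝ → E4} {a' : E4} {t : ℝ} (h : HasDerivAt a a' t) :
    HasDerivAt (fun s => gw (a s)) (-(gw (a t) / 2) * ⟪a t, a'⟫_ℝ) t := by
  refine ((h.norm_sq.neg.div_const 4).exp).congr_deriv ?_
  simp only [gw, Pi.neg_apply]; ring

lemma gw_pos (y : E4) : 0 < gw y := Real.exp_pos _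

lemma cd_gw {n : WithTop ℕ∞} : ContDiff ℝ n gw :=
  ((contDiff_norm_sq ℝ).neg.div_const 4).exp

/-- weighted unit normal -/
noncomputable def mu (X : E4 → E4) (y : E4) : E4 := (gw (X y) / ‖nrm X y‖) • nrm X y

lemma cd_nrm {X : E4 → E4} {x : E4} (hX : ContDiffAt ℝ 2 X x) : ContDiffAt ℝ 1 (nrm X) x :=
  cd_cr (contDiffAt_D hX (by norm_num) 0) (contDiffAt_D hX (by norm_num) 1)
    (contDiffAt_D hX (by norm_num) 2)

lemma cd_mu {X : E4 → E4} {x : E4} (hX : ContDiffAt ℝ 2 X x) (hn : nrm X x ≠ 0) :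
    ContDiffAt ℝ 1 (mu X) x :=
  ((cd_gw.contDiffAt.comp x (hX.of_le (by norm_num))).div ((cd_nrm hX).norm ℝ hn)
    (norm_ne_zero_iff.2 hn)).smul (cd_nrm hX)

lemma D_perp (X : E4 → E4) (y : E4) (j : Fin 3) : ⟪nrm X y, D j X y⟫_ℝ = 0 := by
  rw [real_inner_comm]
  fin_cases j
  exacts [cr_perp0 _ _ _, cr_perp1 _ _ _, cr_perp2 _ _ _]

lemma Dmu_tan {X : E4 → E4} {x : E4} (hX : ContDiffAt ℝ 2 X x) (hn : nrm X x ≠ 0) (i j : Fin 3) :
    ⟪D i (mu X) x, D j X x⟫_ℝ = -(gw (X x) / ‖nrm X x‖) * ⟪D i (D j X) x, nrm X x⟫_ℝ := by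
  have h1 := dD ((cd_mu hX hn).differentiableAt (by simp)) i
  have h2 := dD ((contDiffAt_D (m := 1) hX (by norm_num) j).differentiableAt (by simp)) i
  have h3 := h1.inner ℝ h2
  simp only [mu, real_inner_smul_left, D_perp, mul_zero, rot_zero] at h3
  have h4 := h3.unique (hasDerivAt_const _ _)
  rw [real_inner_comm (nrm X x)]
  linarith

lemma Dmu_nor {X : E4 → E4} {x : E4} (hX : ContDiffAt ℝ 2 X x) (hn : nrm X x ≠ 0) (i : Fin 3) :
    ⟪D i (mu X) x, nrm X x⟫_ℝ = -(gw (X x) / 2) * ‖nrm X x‖ * ⟪X x, D i X x⟫_ℝ := by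
  have h1 := (dD ((cd_mu hX hn).differentiableAt (by simp)) i).norm_sq
  have h2 := (hd_gw (dD (hX.differentiableAt (by simp)) i)).pow 2
  have h0 : ∀ᶠ s in 𝓝 (0 : ℝ), nrm X (rot i s x) ≠ 0 := by
    refine (dD ((cd_nrm hX).differentiableAt (by simp)) i).continuousAt.eventually_ne ?_
    simpa only [rot_zero] using hn
  have h3 := h1.unique (h2.congr_of_eventuallyEq (h0.mono fun s hs => by
    have := norm_ne_zero_iff.2 hs
    simp only [mu, norm_smul, Real.norm_eq_abs, mul_pow, sq_abs, Pi.pow_apply]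
    field_simp))
  have hJ := norm_ne_zero_iff.2 hn
  have hw := (gw_pos (X x)).ne'
  simp only [rot_zero, mu, real_inner_smul_left, Nat.cast_ofNat] at h3
  rw [real_inner_comm]
  change 2 * (_ * ⟪nrm X x, D i (mu X) x⟫_ℝ) = _ at h3
  field_simp at h3 ⊢
  norm_num at h3
  linarith

lemma D_dt {m a b c : E4 → E4} {x : E4} (hm : ContDiffAt ℝ 1 m x) (ha : ContDiffAt ℝ 1 a x)
    (hb : ContDiffAt ℝ 1 b x) (hc : ContDiffAt ℝ 1 c x) (i : Fin 3) :
    D i (fun y => dt (m y) (a y) (b y) (c y)) x =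
      dt (D i m x) (a x) (b x) (c x) + dt (m x) (D i a x) (b x) (c x) +
        dt (m x) (a x) (D i b x) (c x) + dt (m x) (a x) (b x) (D i c x) := by
  have h := hd_dt (dD (hm.differentiableAt (by simp)) i) (dD (ha.differentiableAt (by simp)) i)
    (dD (hb.differentiableAt (by simp)) i) (dD (hc.differentiableAt (by simp)) i)
  simp only [rot_zero] at h
  exact (dD ((cd_dt hm ha hb hc).differentiableAt (by simp)) i).unique h

/-- the three components of the flux -/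
noncomputable def fl0 (X V : E4 → E4) (y : E4) : ℝ := dt (mu X y) (V y) (D 1 X y) (D 2 X y)
noncomputable def fl1 (X V : E4 → E4) (y : E4) : ℝ := dt (mu X y) (D 0 X y) (V y) (D 2 X y)
noncomputable def fl2 (X V : E4 → E4) (y : E4) : ℝ := dt (mu X y) (D 0 X y) (D 1 X y) (V y)

/-- divergence of the flux at a point where the equation holds -/
lemma div_flux {X V : E4 → E4} {x : E4} (hX : ContDiffAt ℝ 2 X x) (hV : ContDiffAt ℝ 1 V x)
    (hn : nrm X x ≠ 0) (hN : Nres X x = 0) :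
    D 0 (fl0 X V) x + D 1 (fl1 X V) x + D 2 (fl2 X V) x =
      dt (mu X x) (D 0 V x) (D 1 X x) (D 2 X x) + dt (mu X x) (D 0 X x) (D 1 V x) (D 2 X x) +
        dt (mu X x) (D 0 X x) (D 1 X x) (D 2 V x) - gw (X x) * ‖nrm X x‖ / 2 * ⟪X x, V x⟫_ℝ := by
  have c := fun j => contDiffAt_D (m := 1) hX (by norm_num) j
  have k := key_alg (X x) (V x) (fun i => D i X x) (fun i => D i (mu X) x)
    (fun i j => D i (D j X) x) (gw (X x)) (nrm X x) rfl hn (Dmu_nor hX hn) (Dmu_tan hX hn) hN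
  have e0 := D_dt (cd_mu hX hn) hV (c 1) (c 2) 0
  have e1 := D_dt (cd_mu hX hn) (c 0) hV (c 2) 1
  have e2 := D_dt (cd_mu hX hn) (c 0) (c 1) hV 2
  change D 0 (fl0 X V) x = _ at e0
  change D 1 (fl1 X V) x = _ at e1
  change D 2 (fl2 X V) x = _ at e2
  rw [e0, e1, e2, DD10 hX, DD21 hX, DD20 hX]
  linear_combination (norm := skip) k
  simp only [dt_eq, d3, PiLp.add_apply, PiLp.smul_apply, smul_eq_mul]
  ring

end Pool.Agent.MP_48470b_gt.Geo
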